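import Pool.Agent.H72.JC.Lin

/-!
# The spectrum of the collinearity graph of a partial linear space

It depends only on the relation of being in a common vertex, for the nodes.
-/

set_option autoImplicit false

namespace Pool.Agent.H72.JC

open Matrix

section

variable {V Q : Type*} [Fintype V] [Fintype Q] [DecidableEq V] [DecidableEq Q]

/-- The incidence matrix. -/
def incM (nd : V → Finset Q) : Matrix V Q ℝ := fun x p => if p ∈ nd x then 1 else 0

theorem incM_mul_transpose {nd : V → Finset Q} {r : ℕ} (hr : ∀ x, (nd x).card = r)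
    (hl : Linear nd) [DecidableRel (coll nd).Adj] :
    incM nd * (incM nd)ᵀ = (coll nd).adjMatrix ℝ + Matrix.scalar V (r : ℝ) := by
  ext x y
  rw [Matrix.mul_apply, Matrix.add_apply, SimpleGraph.adjMatrix_apply, Matrix.scalar_apply,
    Matrix.diagonal_apply]
  have h1 : ∑ p, incM nd x p * (incM nd)ᵀ p y = ((nd x ∩ nd y).card : ℝ) := by
    rw [Finset.card_eq_sum_ones, Nat.cast_sum, ← Finset.sum_filter_add_sum_filter_not Finset.univ
      (fun p => p ∈ nd x ∩ nd y)]
    rw [Finset.sum_eq_zero (s := Finset.univ.filter fun p => ¬ p ∈ nd x ∩ nd y), add_zero]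
    · refine Finset.sum_congr (by ext; simp) fun p hp => ?_
      rw [Finset.mem_inter] at hp
      simp [incM, hp.1, hp.2]
    · intro p hp
      rw [Finset.mem_filter, Finset.mem_inter] at hp
      simp only [incM, Matrix.transpose_apply, mul_ite, mul_one, mul_zero]
      split_ifs with h2 h3
      · exact absurd ⟨h3, h2⟩ hp.2
      · rfl
      · rfl
  rw [h1]
  by_cases hxy : x = y
  · subst hxy
    rw [Finset.inter_self, hr, if_neg (SimpleGraph.irrefl _), if_pos rfl, zero_add]
  · rw [if_neg hxy, add_zero]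
    by_cases hadj : (coll nd).Adj x y
    · rw [if_pos hadj]
      obtain ⟨_, p, hp1, hp2⟩ := hadj
      have h2 : (nd x ∩ nd y).card = 1 := by
        rw [Finset.card_eq_one]
        refine ⟨p, ?_⟩
        ext q
        rw [Finset.mem_inter, Finset.mem_singleton]
        constructor
        · rintro ⟨h3, h4⟩
          by_contra hne
          exact hxy (hl x y q p hne h3 hp1 h4 hp2)
        · rintro rfl
          exact ⟨hp1, hp2⟩
      rw [h2, Nat.cast_one]
    · rw [if_neg hadj]
      have h2 : nd x ∩ nd y = ∅ := by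
        rw [Finset.eq_empty_iff_forall_notMem]
        intro p hp
        rw [Finset.mem_inter] at hp
        exact hadj ⟨hxy, p, hp.1, hp.2⟩
      rw [h2, Finset.card_empty, Nat.cast_zero]

theorem transpose_mul_incM (nd : V → Finset Q) (p q : Q) :
    ((incM nd)ᵀ * incM nd) p q =
      ((Finset.univ.filter fun x => p ∈ nd x ∧ q ∈ nd x).card : ℝ) := by
  rw [Matrix.mul_apply, Finset.card_eq_sum_ones, Nat.cast_sum, Finset.sum_filter]
  refine Finset.sum_congr rfl fun x _ => ?_
  simp only [incM, Matrix.transpose_apply, mul_ite, mul_one, mul_zero]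
  split_ifs with h1 h2 h3 h3 <;> simp_all

/-- Double counting. -/
theorem card_vertices_mul {nd : V → Finset Q} {r : ℕ} (hr : ∀ x, (nd x).card = r)
    (hl : Linear nd) (p : Q) :
    (Finset.univ.filter fun x => p ∈ nd x).card * (r - 1) =
      (Finset.univ.filter fun q => q ≠ p ∧ ∃ x, p ∈ nd x ∧ q ∈ nd x).card := by
  have h1 : (Finset.univ.filter fun q => q ≠ p ∧ ∃ x, p ∈ nd x ∧ q ∈ nd x) =
      (Finset.univ.filter fun x => p ∈ nd x).biUnion fun x => (nd x).erase p := by
    ext q
    simp only [Finset.mem_filter, Finset.mem_univ, true_and, Finset.mem_biUnion, Finset.mem_erase]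
    constructor
    · rintro ⟨h1, x, h2, h3⟩
      exact ⟨x, h2, h1, h3⟩
    · rintro ⟨x, h2, h1, h3⟩
      exact ⟨h1, x, h2, h3⟩
  rw [h1, Finset.card_biUnion]
  · rw [Finset.sum_const_nat (m := r - 1)]
    intro x hx
    rw [Finset.mem_filter] at hx
    rw [Finset.card_erase_of_mem hx.2, hr]
  · intro x hx y hy hxy
    rw [Finset.mem_coe, Finset.mem_filter] at hx hy
    rw [Function.onFun, Finset.disjoint_left]
    intro q hq1 hq2
    rw [Finset.mem_erase] at hq1 hq2
    exact hxy (hl x y q p hq1.1 hq1.2 hx.2 hq2.2 hy.2)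

end

theorem card_common {V Q : Type*} [Fintype V] [DecidableEq Q] {nd : V → Finset Q}
    (hl : Linear nd) {p q : Q} (hpq : p ≠ q) [Decidable (∃ x, p ∈ nd x ∧ q ∈ nd x)] :
    (Finset.univ.filter fun x => p ∈ nd x ∧ q ∈ nd x).card =
      if ∃ x, p ∈ nd x ∧ q ∈ nd x then 1 else 0 := by
  split_ifs with h
  · obtain ⟨x, hx⟩ := h
    rw [Finset.card_eq_one]
    refine ⟨x, ?_⟩
    ext y
    rw [Finset.mem_filter, Finset.mem_singleton]
    constructor
    · rintro ⟨_, h1, h2⟩
      exact hl y x p q hpq h1 h2 hx.1 hx.2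
    · rintro rfl
      exact ⟨Finset.mem_univ _, hx⟩
  · rw [Finset.card_eq_zero, Finset.filter_eq_empty_iff]
    intro x _ hx
    exact h ⟨x, hx⟩

/-- Each node is in the same number of vertices of both spaces. -/
theorem card_node_eq {V W Q : Type*} [Fintype V] [Fintype W] [Fintype Q] [DecidableEq Q]
    {nd : V → Finset Q} {nd' : W → Finset Q} {r : ℕ} (h2 : 2 ≤ r)
    (hr : ∀ x, (nd x).card = r) (hr' : ∀ x, (nd' x).card = r) (hl : Linear nd) (hl' : Linear nd')
    (h : ∀ p q, p ≠ q → ((∃ x, p ∈ nd x ∧ q ∈ nd x) ↔ ∃ x, p ∈ nd' x ∧ q ∈ nd' x)) (p : Q) :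
    (Finset.univ.filter fun x => p ∈ nd x).card = (Finset.univ.filter fun x => p ∈ nd' x).card := by
  classical
  have h1 := card_vertices_mul hr hl p
  have h3 := card_vertices_mul hr' hl' p
  have h4 : (Finset.univ.filter fun q => q ≠ p ∧ ∃ x, p ∈ nd x ∧ q ∈ nd x) =
      (Finset.univ.filter fun q => q ≠ p ∧ ∃ x, p ∈ nd' x ∧ q ∈ nd' x) := by
    refine Finset.filter_congr fun q _ => and_congr_right fun hq => h p q hq.symm
  rw [h4, ← h3] at h1
  exact Nat.eq_of_mul_eq_mul_right (by omega) h1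

/-- The gram matrices of the incidence matrices agree. -/
theorem gram_eq {V W Q : Type*} [Fintype V] [Fintype W] [Fintype Q] [DecidableEq V]
    [DecidableEq W] [DecidableEq Q] {nd : V → Finset Q} {nd' : W → Finset Q} {r : ℕ} (h2 : 2 ≤ r)
    (hr : ∀ x, (nd x).card = r) (hr' : ∀ x, (nd' x).card = r) (hl : Linear nd) (hl' : Linear nd')
    (h : ∀ p q, p ≠ q → ((∃ x, p ∈ nd x ∧ q ∈ nd x) ↔ ∃ x, p ∈ nd' x ∧ q ∈ nd' x)) :
    (incM nd)ᵀ * incM nd = (incM nd')ᵀ * incM nd' := by
  classical
  ext p q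
  rw [transpose_mul_incM, transpose_mul_incM]
  by_cases hpq : p = q
  · subst hpq
    simp only [and_self]
    rw [card_node_eq h2 hr hr' hl hl' h]
  · rw [card_common hl hpq, card_common hl' hpq]
    congr 1
    exact if_congr (h p q hpq) rfl rfl

/-- The collinearity graphs are cospectral. -/
theorem cospectral_coll {V W Q : Type*} [Fintype V] [Fintype W] [Fintype Q] [DecidableEq Q]
    {nd : V → Finset Q} {nd' : W → Finset Q} {r : ℕ} (h2 : 2 ≤ r)
    (hr : ∀ x, (nd x).card = r) (hr' : ∀ x, (nd' x).card = r) (hl : Linear nd) (hl' : Linear nd')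
    (h : ∀ p q, p ≠ q → ((∃ x, p ∈ nd x ∧ q ∈ nd x) ↔ ∃ x, p ∈ nd' x ∧ q ∈ nd' x)) :
    Cospectral (coll nd) (coll nd') := by
  classical
  unfold Cospectral
  have hg := gram_eq h2 hr hr' hl hl' h
  have e1 := incM_mul_transpose hr hl
  have e2 := incM_mul_transpose hr' hl'
  have hcard : Fintype.card V = Fintype.card W := by
    have t1 : (incM nd * (incM nd)ᵀ).trace = (incM nd' * (incM nd')ᵀ).trace := by
      rw [Matrix.trace_mul_comm, hg, Matrix.trace_mul_comm]
    rw [e1, e2, Matrix.trace_add, Matrix.trace_add, SimpleGraph.trace_adjMatrix,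
      SimpleGraph.trace_adjMatrix, Matrix.scalar_apply, Matrix.scalar_apply,
      Matrix.trace_diagonal, Matrix.trace_diagonal, Finset.sum_const, Finset.sum_const,
      Finset.card_univ, Finset.card_univ, nsmul_eq_mul, nsmul_eq_mul, zero_add, zero_add] at t1
    have hr0 : (r : ℝ) ≠ 0 := by
      have : (2 : ℝ) ≤ r := by exact_mod_cast h2
      positivity
    exact_mod_cast mul_right_cancel₀ hr0 t1
  have c1 := Matrix.charpoly_mul_comm' (incM nd) (incM nd)ᵀ
  have c2 := Matrix.charpoly_mul_comm' (incM nd') (incM nd')ᵀ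
  rw [hg, hcard, ← c2] at c1
  have c3 : (incM nd * (incM nd)ᵀ).charpoly = (incM nd' * (incM nd')ᵀ).charpoly :=
    mul_left_cancel₀ (pow_ne_zero _ Polynomial.X_ne_zero) c1
  have f1 : (coll nd).adjMatrix ℝ = incM nd * (incM nd)ᵀ - Matrix.scalar V (r : ℝ) := by
    rw [e1, add_sub_cancel_right]
  have f2 : (coll nd').adjMatrix ℝ = incM nd' * (incM nd')ᵀ - Matrix.scalar W (r : ℝ) := by
    rw [e2, add_sub_cancel_right]
  rw [f1, f2, Matrix.charpoly_sub_scalar, Matrix.charpoly_sub_scalar, c3]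

end Pool.Agent.H72.JC
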