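import Pool.Agent.H72.JC.Johnson
import Pool.Agent.H72.JC.Spec

/-!
# Graphs cospectral with the Johnson graph `J(v, k + 2)`

Given a family `F` of `2 k + 2`-subsets of the set of points two of which have at most `k + 1`
common elements, the `k + 2`-subsets contained in a member `E` of `F` are replaced by the
`k`-subsets `C` of `E`; the nodes (`k + 1`-sets) of the new vertex `(E, C)` are those between `C`
and `E`.
-/

set_option autoImplicit false

namespace Pool.Agent.H72.JC

variable {P : Type*} [Fintype P] [DecidableEq P]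

/-- The families in question. -/
structure Good (k : ℕ) (F : Set (Finset P)) : Prop where
  card : ∀ E ∈ F, E.card = 2 * k + 2
  inter : ∀ E ∈ F, ∀ E' ∈ F, E ≠ E' → (E ∩ E').card ≤ k + 1

/-- The vertices. -/
def IsVtx (k : ℕ) (F : Set (Finset P)) : Finset P ⊕ Finset P × Finset P → Prop
  | Sum.inl S => S.card = k + 2 ∧ ∀ E ∈ F, ¬ S ⊆ E
  | Sum.inr (E, C) => E ∈ F ∧ C ⊆ E ∧ C.card = k

/-- The type of the vertices. -/
abbrev Vtx (k : ℕ) (F : Set (Finset P)) : Type _ :=
  {x : Finset P ⊕ Finset P × Finset P // IsVtx k F x}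

noncomputable instance {k : ℕ} {F : Set (Finset P)} : Fintype (Vtx k F) := Fintype.ofFinite _

/-- The incidence of vertices and nodes. -/
def Inc : Finset P ⊕ Finset P × Finset P → Finset P → Prop
  | Sum.inl S, p => p ⊆ S
  | Sum.inr (E, C), p => C ⊆ p ∧ p ⊆ E

open Classical in
/-- The nodes of a vertex. -/
noncomputable def nd {k : ℕ} {F : Set (Finset P)} (x : Vtx k F) :
    Finset {p : Finset P // p.card = k + 1} := Finset.univ.filter fun p => Inc x.1 p.1

theorem mem_nd {k : ℕ} {F : Set (Finset P)} {x : Vtx k F} {p : {p : Finset P // p.card = k + 1}} :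
    p ∈ nd x ↔ Inc x.1 p.1 := by
  simp [nd]

/-- The number of sets of size `k + 1` between a set of size `k` and a set of size `m`. -/
theorem card_between {k m : ℕ} {C E : Finset P} (hC : C.card = k) (hCE : C ⊆ E)
    (hE : E.card = m + k) :
    (Finset.univ.filter fun p : {p : Finset P // p.card = k + 1} => C ⊆ p.1 ∧ p.1 ⊆ E).card = m := by
  classical
  have h1 : (E \ C).card = m := by
    rw [Finset.card_sdiff_of_subset hCE, hE, hC, Nat.add_sub_cancel]
  rw [← h1]
  symm
  refine Finset.card_bij (fun x hx => ⟨insert x C, by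
    rw [Finset.mem_sdiff] at hx
    rw [Finset.card_insert_of_notMem hx.2, hC]⟩) ?_ ?_ ?_
  · intro x hx
    rw [Finset.mem_sdiff] at hx
    rw [Finset.mem_filter]
    exact ⟨Finset.mem_univ _, Finset.subset_insert _ _, Finset.insert_subset hx.1 hCE⟩
  · intro x hx y hy hxy
    rw [Finset.mem_sdiff] at hx hy
    have h2 : x ∈ insert y C := by
      rw [← show insert x C = insert y C from congrArg Subtype.val hxy]
      exact Finset.mem_insert_self _ _
    rcases Finset.mem_insert.1 h2 with h3 | h3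
    · exact h3
    · exact absurd h3 hx.2
  · intro p hp
    rw [Finset.mem_filter] at hp
    obtain ⟨_, h2, h3⟩ := hp
    have h4 : (p.1 \ C).card = 1 := by
      rw [Finset.card_sdiff_of_subset h2, p.2, hC]
      omega
    obtain ⟨x, hx⟩ := Finset.card_eq_one.1 h4
    have hx' : x ∈ p.1 \ C := by rw [hx]; exact Finset.mem_singleton_self x
    rw [Finset.mem_sdiff] at hx'
    refine ⟨x, Finset.mem_sdiff.2 ⟨h3 hx'.1, hx'.2⟩, Subtype.ext ?_⟩
    show insert x C = p.1
    rw [← Finset.sdiff_union_of_subset h2, hx]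
    rfl

theorem card_nd {k : ℕ} {F : Set (Finset P)} (hF : Good k F) (x : Vtx k F) :
    (nd x).card = k + 2 := by
  classical
  obtain ⟨x, hx⟩ := x
  rcases x with S | ⟨E, C⟩
  · have h1 : nd (⟨Sum.inl S, hx⟩ : Vtx k F) = subs (k + 1) S := by
      ext p
      rw [mem_nd, mem_subs]
      rfl
    rw [h1, card_subs, hx.1, Nat.choose_succ_self_right]
  · have h1 : nd (⟨Sum.inr (E, C), hx⟩ : Vtx k F) =
        Finset.univ.filter fun p : {p : Finset P // p.card = k + 1} => C ⊆ p.1 ∧ p.1 ⊆ E := by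
      ext p
      rw [mem_nd, Finset.mem_filter]
      exact ⟨fun h => ⟨Finset.mem_univ _, h⟩, fun h => h.2⟩
    rw [h1]
    refine card_between hx.2.2 hx.2.1 ?_
    rw [hF.card E hx.1]
    omega

omit [Fintype P] in
/-- Two nodes of a vertex have `k` common elements. -/
theorem two_nodes {k : ℕ} {F : Set (Finset P)} {x : Finset P ⊕ Finset P × Finset P}
    (hx : IsVtx k F x) {p q : Finset P} (hp : p.card = k + 1) (hq : q.card = k + 1) (hne : p ≠ q)
    (h1 : Inc x p) (h2 : Inc x q) :
    (p ∪ q).card = k + 2 ∧ (x = Sum.inl (p ∪ q) ∨ ∃ E ∈ F, p ∪ q ⊆ E ∧ x = Sum.inr (E, p ∩ q)) := by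
  rcases x with S | ⟨E, C⟩
  · have h3 := union_eq hp hq hne h1 h2 hx.1
    rw [h3]
    exact ⟨hx.1, Or.inl rfl⟩
  · obtain ⟨hE, hCE, hC⟩ := hx
    have h3 : C ⊆ p ∩ q := Finset.subset_inter h1.1 h2.1
    have h4 : (p ∩ q).card ≤ k := by
      by_contra h
      push Not at h
      have h5 : p ∩ q = p := Finset.eq_of_subset_of_card_le Finset.inter_subset_left (by omega)
      have h6 : p ∩ q = q := Finset.eq_of_subset_of_card_le Finset.inter_subset_right (by omega)
      exact hne (h5.symm.trans h6)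
    have h5 : C = p ∩ q := Finset.eq_of_subset_of_card_le h3 (by omega)
    have h6 := card_union_eq hp hq
    rw [← h5, hC] at h6
    refine ⟨by omega, Or.inr ⟨E, hE, Finset.union_subset h1.2 h2.2, by rw [h5]⟩⟩

theorem linear_nd {k : ℕ} {F : Set (Finset P)} (hF : Good k F) :
    Linear (nd (k := k) (F := F)) := by
  intro a b p q hpq h1 h2 h3 h4
  rw [mem_nd] at h1 h2 h3 h4
  have hne : p.1 ≠ q.1 := fun h => hpq (Subtype.ext h)
  obtain ⟨hc, ha⟩ := two_nodes a.2 p.2 q.2 hne h1 h2
  obtain ⟨_, hb⟩ := two_nodes b.2 p.2 q.2 hne h3 h4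
  apply Subtype.ext
  have ha2 := a.2
  have hb2 := b.2
  rcases ha with ha | ⟨E, hE, hE2, ha⟩ <;> rcases hb with hb | ⟨E', hE', hE2', hb⟩
  · rw [ha, hb]
  · rw [ha] at ha2
    exact absurd hE2' (ha2.2 E' hE')
  · rw [hb] at hb2
    exact absurd hE2 (hb2.2 E hE)
  · rw [ha, hb]
    by_cases h : E = E'
    · rw [h]
    · have h5 := hF.inter E hE E' hE' h
      have h6 := Finset.card_le_card (Finset.subset_inter hE2 hE2')
      omega

omit [Fintype P] in
/-- Two nodes with `k` common elements have a common vertex. -/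
theorem exists_vtx {k : ℕ} (F : Set (Finset P)) {p q : Finset P} (hp : p.card = k + 1)
    (hq : q.card = k + 1) (hc : (p ∪ q).card = k + 2) :
    ∃ x : Vtx k F, Inc x.1 p ∧ Inc x.1 q := by
  by_cases h : ∃ E ∈ F, p ∪ q ⊆ E
  · obtain ⟨E, hE, h1⟩ := h
    have h2 := card_union_eq hp hq
    refine ⟨⟨Sum.inr (E, p ∩ q), hE, ?_, by omega⟩, ?_, ?_⟩
    · exact Finset.inter_subset_left.trans (Finset.subset_union_left.trans h1)
    · exact ⟨Finset.inter_subset_left, Finset.subset_union_left.trans h1⟩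
    · exact ⟨Finset.inter_subset_right, Finset.subset_union_right.trans h1⟩
  · push Not at h
    exact ⟨⟨Sum.inl (p ∪ q), hc, h⟩, Finset.subset_union_left, Finset.subset_union_right⟩

theorem exists_common_iff {k : ℕ} (F : Set (Finset P))
    {p q : {p : Finset P // p.card = k + 1}} (hpq : p ≠ q) :
    (∃ x : Vtx k F, p ∈ nd x ∧ q ∈ nd x) ↔ (p.1 ∪ q.1).card = k + 2 := by
  simp only [mem_nd]
  constructor
  · rintro ⟨x, h1, h2⟩
    exact (two_nodes x.2 p.2 q.2 (fun h => hpq (Subtype.ext h)) h1 h2).1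
  · intro h
    exact exists_vtx F p.2 q.2 h

/-- The collinearity graph is cospectral with the Johnson graph. -/
theorem cospectral_johnson {k : ℕ} {F : Set (Finset P)} (hF : Good k F) :
    Cospectral (coll (nd (k := k) (F := F))) (johnson P (k + 2)) := by
  rw [← coll_subs]
  refine cospectral_coll (r := k + 2) (by omega) (card_nd hF) (fun B => ?_) (linear_nd hF)
    (linear_subs (k + 1)) fun p q hpq => ?_
  · rw [card_subs, B.2, Nat.choose_succ_self_right]
  · rw [exists_common_iff F hpq]
    simp only [mem_subs]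
    constructor
    · intro h
      exact ⟨⟨p.1 ∪ q.1, h⟩, Finset.subset_union_left, Finset.subset_union_right⟩
    · rintro ⟨B, h1, h2⟩
      rw [union_eq p.2 q.2 (fun h => hpq (Subtype.ext h)) h1 h2 B.2, B.2]

end Pool.Agent.H72.JC
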