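import Mathlib

/-!
# Johnson graphs and cospectral graphs
-/

set_option autoImplicit false

namespace Pool.Agent.H72.JC

/-- The Johnson graph `J(V, d)`: the `d`-subsets of `V`, two of them adjacent if they share `d - 1`
elements. -/
def johnson (V : Type*) [DecidableEq V] (d : ℕ) : SimpleGraph {s : Finset V // s.card = d} where
  Adj s t := (s.1 ∩ t.1).card + 1 = d
  symm := ⟨fun s t h => by rw [Finset.inter_comm]; exact h⟩
  loopless := ⟨fun s h => by
    rw [Finset.inter_self, s.2] at h
    omega⟩

open Classical in
/-- Two finite graphs are cospectral if their adjacency matrices have the same characteristic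
polynomial. -/
def Cospectral {V W : Type*} [Fintype V] [Fintype W] (G : SimpleGraph V) (H : SimpleGraph W) :
    Prop := (G.adjMatrix ℝ).charpoly = (H.adjMatrix ℝ).charpoly

open Classical in
/-- The number of distinct eigenvalues of (the adjacency matrix of) a finite graph. -/
noncomputable def numEigenvalues {V : Type*} [Fintype V] (G : SimpleGraph V) : ℕ :=
  (spectrum ℝ (G.adjMatrix ℝ)).ncard

/-- The graph has the spectrum (with multiplicities) of a Johnson graph `J(v, d)`, `v ≥ 2 d`. -/
def JohnsonSpectrum (d : ℕ) {n : ℕ} (G : SimpleGraph (Fin n)) : Prop :=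
  ∃ v : ℕ, 2 * d ≤ v ∧ Cospectral G (johnson (Fin v) d)

end Pool.Agent.H72.JC
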