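import Pool.Agent.H72.JC.Rec

/-!
# The distinct eigenvalues of the Johnson graphs
-/

set_option autoImplicit false

namespace Pool.Agent.H72.JC

open Matrix Polynomial

variable {P : Type*} [Fintype P] [DecidableEq P]

/-- The incidence matrix of `m + 1`-sets and `m`-sets. -/
noncomputable def jM (P : Type*) [Fintype P] [DecidableEq P] (m : ℕ) :
    Matrix {B : Finset P // B.card = m + 1} {p : Finset P // p.card = m} ℝ :=
  incM fun B => subs m B.1

theorem card_supers_eq {m : ℕ} (p : {p : Finset P // p.card = m}) :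
    (Finset.univ.filter fun B : {B : Finset P // B.card = m + 1} => p ∈ subs m B.1).card =
      Fintype.card P - m := by
  have h1 : m ≤ Fintype.card P := by
    rw [← p.2]
    exact Finset.card_le_univ _
  have h2 := card_between (k := m) (m := Fintype.card P - m) (C := p.1) (E := Finset.univ) p.2
    (Finset.subset_univ _) (by rw [Finset.card_univ]; omega)
  rw [← h2]
  congr 1
  ext B
  simp [mem_subs]

open Classical in
theorem jM_mul_transpose (m : ℕ) :
    jM P m * (jM P m)ᵀ = (johnson P (m + 1)).adjMatrix ℝ + Matrix.scalar _ ((m + 1 : ℕ) : ℝ) := by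
  have h1 := incM_mul_transpose (nd := fun B : {B : Finset P // B.card = m + 1} => subs m B.1)
    (r := m + 1) (fun B => by rw [card_subs, B.2, Nat.choose_succ_self_right]) (linear_subs m)
  rw [jM, h1]
  congr 1
  ext x y
  rw [SimpleGraph.adjMatrix_apply, SimpleGraph.adjMatrix_apply, coll_subs]

open Classical in
theorem transpose_mul_jM (m : ℕ) :
    (jM P m)ᵀ * jM P m = (johnson P m).adjMatrix ℝ +
      Matrix.scalar _ ((Fintype.card P - m : ℕ) : ℝ) := by
  ext p q
  rw [jM, transpose_mul_incM, Matrix.add_apply, SimpleGraph.adjMatrix_apply, Matrix.scalar_apply,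
    Matrix.diagonal_apply]
  by_cases hpq : p = q
  · subst hpq
    simp only [and_self, if_true, SimpleGraph.irrefl, if_false, zero_add]
    rw [card_supers_eq]
  · rw [card_common (linear_subs m) hpq, if_neg hpq, add_zero]
    have h1 : (∃ x : {B : Finset P // B.card = m + 1}, p ∈ subs m x.1 ∧ q ∈ subs m x.1) ↔
        (johnson P m).Adj p q := by
      simp only [mem_subs]
      have h2 := card_union_eq p.2 q.2
      rw [johnson_adj]
      constructor
      · rintro ⟨B, hB1, hB2⟩
        rw [union_eq p.2 q.2 (fun h => hpq (Subtype.ext h)) hB1 hB2 B.2, B.2] at h2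
        omega
      · intro h
        exact ⟨⟨p.1 ∪ q.1, by omega⟩, Finset.subset_union_left, Finset.subset_union_right⟩
    by_cases h2 : (johnson P m).Adj p q
    · rw [if_pos (h1.2 h2), if_pos h2, Nat.cast_one]
    · rw [if_neg (fun h => h2 (h1.1 h)), if_neg h2, Nat.cast_zero]

theorem card_lev (m : ℕ) :
    Fintype.card {p : Finset P // p.card = m} = (Fintype.card P).choose m := by
  rw [Fintype.card_subtype, ← Finset.card_univ, ← Finset.card_powersetCard,
    Finset.powersetCard_eq_filter]
  rfl

open Classical in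
/-- The recursion for the eigenvalues. -/
theorem isRoot_johnson_succ {m : ℕ} (hm : 2 * (m + 1) ≤ Fintype.card P) (t : ℝ) :
    ((johnson P (m + 1)).adjMatrix ℝ).charpoly.IsRoot t ↔
      t = -(m + 1) ∨ ((johnson P m).adjMatrix ℝ).charpoly.IsRoot
        (t + (m + 1) - (Fintype.card P - m)) := by
  have hlt : Fintype.card {p : Finset P // p.card = m} <
      Fintype.card {p : Finset P // p.card = m + 1} := by
    rw [card_lev, card_lev]
    have h1 := Nat.choose_succ_right_eq (Fintype.card P) m
    have h2 : 0 < (Fintype.card P).choose m := Nat.choose_pos (by omega)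
    have h3 : m + 2 ≤ Fintype.card P - m := by omega
    nlinarith
  have h1 := Matrix.charpoly_mul_comm_of_le (jM P m) (jM P m)ᵀ hlt.le
  have e1 : (johnson P (m + 1)).adjMatrix ℝ =
      jM P m * (jM P m)ᵀ - Matrix.scalar _ ((m + 1 : ℕ) : ℝ) := by
    rw [jM_mul_transpose, add_sub_cancel_right]
  have e2 : (johnson P m).adjMatrix ℝ =
      (jM P m)ᵀ * jM P m - Matrix.scalar _ ((Fintype.card P - m : ℕ) : ℝ) := by
    rw [transpose_mul_jM, add_sub_cancel_right]
  have hne : Fintype.card {p : Finset P // p.card = m + 1} -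
      Fintype.card {p : Finset P // p.card = m} ≠ 0 := by omega
  rw [e1, e2, Matrix.charpoly_sub_scalar, Matrix.charpoly_sub_scalar, h1]
  simp only [Polynomial.IsRoot.def, Polynomial.eval_comp, Polynomial.eval_mul, Polynomial.eval_pow,
    Polynomial.eval_add, Polynomial.eval_X, Polynomial.eval_C, mul_eq_zero, pow_eq_zero_iff hne]
  have hm' : m ≤ Fintype.card P := by omega
  have h2 : t + (m + 1) - ((Fintype.card P : ℝ) - m) + ((Fintype.card P - m : ℕ) : ℝ) =
      t + ((m + 1 : ℕ) : ℝ) := by
    rw [Nat.cast_sub hm']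
    push_cast
    ring
  rw [h2]
  refine or_congr ?_ Iff.rfl
  push_cast
  constructor <;> intro h <;> linarith

open Classical in
theorem isRoot_johnson_zero (t : ℝ) :
    ((johnson P 0).adjMatrix ℝ).charpoly.IsRoot t ↔ t = 0 := by
  have h1 : (johnson P 0).adjMatrix ℝ = 0 := by
    ext p q
    rw [SimpleGraph.adjMatrix_apply, johnson_adj]
    simp
  rw [h1, Matrix.charpoly_zero]
  simp

open Classical in
theorem roots_johnson : ∀ {m : ℕ}, 2 * m ≤ Fintype.card P →
    ∃ R : Finset ℝ, R.card = m + 1 ∧ (∀ t ∈ R, -(m : ℝ) ≤ t) ∧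
      ∀ t, ((johnson P m).adjMatrix ℝ).charpoly.IsRoot t ↔ t ∈ R
  | 0, _ => ⟨{0}, by simp, by simp, fun t => by rw [isRoot_johnson_zero]; simp⟩
  | m + 1, hm => by
    obtain ⟨R, h1, h2, h3⟩ := roots_johnson (m := m) (by omega)
    have hv : 2 * ((m : ℝ) + 1) ≤ (Fintype.card P : ℝ) := by exact_mod_cast hm
    refine ⟨insert (-((m : ℝ) + 1))
      (R.map (addRightEmbedding ((Fintype.card P : ℝ) - m - (m + 1)))), ?_, ?_, ?_⟩
    · rw [Finset.card_insert_of_notMem, Finset.card_map, h1]
      rw [Finset.mem_map]
      rintro ⟨s, hs, h4⟩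
      have h5 := h2 s hs
      simp only [addRightEmbedding_apply] at h4
      linarith
    · intro t ht
      rw [Finset.mem_insert, Finset.mem_map] at ht
      push_cast
      rcases ht with rfl | ⟨s, hs, rfl⟩
      · exact le_rfl
      · have h5 := h2 s hs
        simp only [addRightEmbedding_apply]
        linarith
    · intro t
      rw [isRoot_johnson_succ hm, Finset.mem_insert, Finset.mem_map, h3]
      refine or_congr Iff.rfl ⟨fun h => ⟨_, h, ?_⟩, ?_⟩
      · simp only [addRightEmbedding_apply]
        ring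
      · rintro ⟨s, hs, rfl⟩
        simp only [addRightEmbedding_apply]
        convert hs using 1
        ring

theorem charpoly_inst {n R : Type*} [Fintype n] [CommRing R] (i j : DecidableEq n)
    (M : Matrix n n R) : @Matrix.charpoly R _ n i _ M = @Matrix.charpoly R _ n j _ M := by
  rw [Subsingleton.elim i j]

open Classical in
/-- Graphs cospectral with `J(v, m)`, `v ≥ 2 m`, have exactly `m + 1` distinct eigenvalues. -/
theorem numEigenvalues_eq {V : Type*} [Fintype V] {G : SimpleGraph V} {m : ℕ}
    (hm : 2 * m ≤ Fintype.card P) (h : Cospectral G (johnson P m)) : numEigenvalues G = m + 1 := by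
  obtain ⟨R, h1, _, h3⟩ := roots_johnson hm
  have h5 : (G.adjMatrix ℝ).charpoly = ((johnson P m).adjMatrix ℝ).charpoly := by
    unfold Cospectral at h
    rw [h]
    exact charpoly_inst _ _ _
  have h4 : spectrum ℝ (G.adjMatrix ℝ) = (R : Set ℝ) := by
    ext t
    rw [Matrix.mem_spectrum_iff_isRoot_charpoly, h5, Finset.mem_coe, ← h3]
  unfold numEigenvalues
  rw [h4, Set.ncard_coe_finset, h1]

end Pool.Agent.H72.JC
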