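import Pool.Agent.H72.JC.Rec

/-!
# Graphs as families of `2 k + 2`-sets
-/

set_option autoImplicit false

namespace Pool.Agent.H72.JC

/-- The number of points of a cell. -/
def LL (k : ℕ) : ℕ := (k + 4) * (k + 4)

theorem LL_ge (k : ℕ) : 4 * k + 3 ≤ LL k ∧ (k + 2) * (k + 2) + 2 + (k + 1) ≤ LL k := by
  unfold LL
  constructor <;> nlinarith

theorem LL_pos (k : ℕ) : 0 < LL k := by
  have := (LL_ge k).1
  omega

/-- The points. -/
abbrev Pt (V : Type*) (k : ℕ) : Type _ := Option V × Option V × Fin (LL k)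

/-- A segment of numbers. -/
def seg (k a b : ℕ) : Finset (Fin (LL k)) := Finset.univ.filter fun l => a ≤ l.1 ∧ l.1 < b

theorem mem_seg {k a b : ℕ} {l : Fin (LL k)} : l ∈ seg k a b ↔ a ≤ l.1 ∧ l.1 < b := by
  simp [seg]

theorem card_seg {k a b : ℕ} (hb : b ≤ LL k) : (seg k a b).card = b - a := by
  have h1 : (seg k a b).map Fin.valEmbedding = Finset.Ico a b := by
    ext x
    rw [Finset.mem_map, Finset.mem_Ico]
    constructor
    · rintro ⟨l, hl, rfl⟩
      exact mem_seg.1 hl
    · intro hx
      exact ⟨⟨x, by omega⟩, mem_seg.2 hx, rfl⟩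
  rw [← Finset.card_map Fin.valEmbedding, h1, Nat.card_Ico]

variable {V : Type*} [DecidableEq V] {k : ℕ}

/-- The points of a cell with numbers in `A`. -/
def cell (i j : V) (A : Finset (Fin (LL k))) : Finset (Pt V k) := {some i} ×ˢ {some j} ×ˢ A

omit [DecidableEq V] in
theorem mem_cell {i j : V} {A : Finset (Fin (LL k))} {x : Pt V k} :
    x ∈ cell i j A ↔ x.1 = some i ∧ x.2.1 = some j ∧ x.2.2 ∈ A := by
  rw [cell, Finset.mem_product, Finset.mem_product, Finset.mem_singleton, Finset.mem_singleton]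

omit [DecidableEq V] in
theorem card_cell (i j : V) (A : Finset (Fin (LL k))) : (cell i j A).card = A.card := by
  simp [cell]

/-- The set of a pair of vertices. -/
def Eset (k : ℕ) (i j : V) : Finset (Pt V k) :=
  (cell i i (seg k 0 1) ∪ cell j j (seg k 0 1)) ∪ (cell i j (seg k 0 k) ∪ cell j i (seg k 0 k))

/-- The first number of a private set. -/
def lo (k : ℕ) (b : Bool) : ℕ := if b then 2 * k + 2 else 1

/-- The private sets of a vertex. -/
def Dset (k : ℕ) (i : V) (b : Bool) : Finset (Pt V k) :=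
  cell i i (seg k 0 1 ∪ seg k (lo k b) (lo k b + (2 * k + 1)))

/-- The family of a graph. -/
def fam (k : ℕ) (G : SimpleGraph V) : Set (Finset (Pt V k)) :=
  {E | (∃ i j, G.Adj i j ∧ E = Eset k i j) ∨ ∃ i b, E = Dset k i b}

/-- The point of a vertex. -/
def rp (k : ℕ) (i : V) : Pt V k := (some i, some i, ⟨0, LL_pos k⟩)

omit [DecidableEq V] in
theorem rp_injective : Function.Injective (rp (V := V) k) := by
  intro i j h
  have := congrArg Prod.fst h
  exact Option.some_injective _ this

theorem card_Eset {i j : V} (h : i ≠ j) : (Eset k i j).card = 2 * k + 2 := by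
  have hk := (LL_ge k).1
  unfold Eset
  rw [Finset.card_union_of_disjoint, Finset.card_union_of_disjoint, Finset.card_union_of_disjoint,
    card_cell, card_cell, card_cell, card_cell, card_seg (by omega), card_seg (by omega)]
  · omega
  · rw [Finset.disjoint_left]
    intro x h1 h2
    rw [mem_cell] at h1 h2
    rw [h1.1] at h2
    exact h (Option.some_injective _ h2.1)
  · rw [Finset.disjoint_left]
    intro x h1 h2
    rw [mem_cell] at h1 h2
    rw [h1.1] at h2
    exact h (Option.some_injective _ h2.1)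
  · rw [Finset.disjoint_left]
    intro x h1 h2
    rw [Finset.mem_union, mem_cell, mem_cell] at h1 h2
    rcases h1 with h1 | h1 <;> rcases h2 with h2 | h2 <;> rw [h1.1, h1.2.1] at h2
    · exact h (Option.some_injective _ h2.2.1)
    · exact h (Option.some_injective _ h2.1)
    · exact h (Option.some_injective _ h2.1.symm)
    · exact h (Option.some_injective _ h2.2.1.symm)

omit [DecidableEq V] in
theorem card_Dset (i : V) (b : Bool) : (Dset k i b).card = 2 * k + 2 := by
  have hk := (LL_ge k).1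
  have hlo : 1 ≤ lo k b ∧ lo k b ≤ 2 * k + 2 := by
    unfold lo
    split_ifs <;> omega
  unfold Dset
  rw [card_cell, Finset.card_union_of_disjoint, card_seg (by omega), card_seg (by omega)]
  · omega
  · rw [Finset.disjoint_left]
    intro l h1 h2
    rw [mem_seg] at h1 h2
    omega

theorem Eset_comm (i j : V) : Eset k i j = Eset k j i := by
  unfold Eset
  rw [Finset.union_comm (cell i i _), Finset.union_comm (cell i j _)]

theorem mem_Eset {i j : V} {x : Pt V k} : x ∈ Eset k i j ↔
    (x = rp k i ∨ x = rp k j) ∨ ((x.1 = some i ∧ x.2.1 = some j ∧ x.2.2.1 < k) ∨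
      (x.1 = some j ∧ x.2.1 = some i ∧ x.2.2.1 < k)) := by
  obtain ⟨a, b, l⟩ := x
  simp only [Eset, Finset.mem_union, mem_cell, mem_seg, rp, Prod.mk.injEq, Fin.ext_iff]
  constructor
  · rintro ((h | h) | (h | h))
    · exact Or.inl (Or.inl ⟨h.1, h.2.1, by omega⟩)
    · exact Or.inl (Or.inr ⟨h.1, h.2.1, by omega⟩)
    · exact Or.inr (Or.inl ⟨h.1, h.2.1, h.2.2.2⟩)
    · exact Or.inr (Or.inr ⟨h.1, h.2.1, h.2.2.2⟩)
  · rintro ((h | h) | (h | h))
    · exact Or.inl (Or.inl ⟨h.1, h.2.1, by omega, by omega⟩)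
    · exact Or.inl (Or.inr ⟨h.1, h.2.1, by omega, by omega⟩)
    · exact Or.inr (Or.inl ⟨h.1, h.2.1, Nat.zero_le _, h.2.2⟩)
    · exact Or.inr (Or.inr ⟨h.1, h.2.1, Nat.zero_le _, h.2.2⟩)

omit [DecidableEq V] in
theorem mem_Dset {i : V} {b : Bool} {x : Pt V k} : x ∈ Dset k i b ↔
    x.1 = some i ∧ x.2.1 = some i ∧
      (x.2.2.1 = 0 ∨ (lo k b ≤ x.2.2.1 ∧ x.2.2.1 < lo k b + (2 * k + 1))) := by
  rw [Dset, mem_cell, Finset.mem_union, mem_seg, mem_seg]
  refine and_congr_right fun _ => and_congr_right fun _ => or_congr ?_ Iff.rfl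
  omega

/-- The points in two members of the family are the points of vertices. -/
theorem eq_rp_of_mem {G : SimpleGraph V} {E E' : Finset (Pt V k)} (hE : E ∈ fam k G)
    (hE' : E' ∈ fam k G) (hne : E ≠ E') {x : Pt V k} (h1 : x ∈ E) (h2 : x ∈ E') :
    ∃ i, x = rp k i := by
  have key : ∀ (i : V), x.1 = some i → x.2.1 = some i → x.2.2.1 = 0 → x = rp k i := by
    intro i h1 h2 h3
    obtain ⟨a, b, l⟩ := x
    simp only [rp, Prod.mk.injEq, Fin.ext_iff]
    exact ⟨h1, h2, h3⟩
  rcases hE with ⟨i, j, hij, rfl⟩ | ⟨i, b, rfl⟩ <;>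
    rcases hE' with ⟨i', j', hij', rfl⟩ | ⟨i', b', rfl⟩
  · rw [mem_Eset] at h1 h2
    rcases h1 with (h1 | h1) | h1
    · exact ⟨_, h1⟩
    · exact ⟨_, h1⟩
    · rcases h2 with (h2 | h2) | h2
      · exact ⟨_, h2⟩
      · exact ⟨_, h2⟩
      · exfalso
        apply hne
        rcases h1 with h1 | h1 <;> rcases h2 with h2 | h2 <;> rw [h1.1, h1.2.1] at h2 <;>
          obtain ⟨h3, h4, _⟩ := h2 <;> rw [Option.some_injective _ h3, Option.some_injective _ h4]
        · exact Eset_comm _ _
        · exact Eset_comm _ _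
  · rw [mem_Eset] at h1
    rw [mem_Dset] at h2
    rcases h1 with (h1 | h1) | h1
    · exact ⟨_, h1⟩
    · exact ⟨_, h1⟩
    · exfalso
      rcases h1 with h1 | h1 <;> rw [h1.1, h1.2.1] at h2 <;> obtain ⟨h3, h4, _⟩ := h2
      · exact hij.ne ((Option.some_injective _ h3).trans (Option.some_injective _ h4).symm)
      · exact hij.ne ((Option.some_injective _ h4).trans (Option.some_injective _ h3).symm)
  · rw [mem_Eset] at h2
    rw [mem_Dset] at h1
    rcases h2 with (h2 | h2) | h2
    · exact ⟨_, h2⟩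
    · exact ⟨_, h2⟩
    · exfalso
      rcases h2 with h2 | h2 <;> rw [h2.1, h2.2.1] at h1 <;> obtain ⟨h3, h4, _⟩ := h1
      · exact hij'.ne ((Option.some_injective _ h3).trans (Option.some_injective _ h4).symm)
      · exact hij'.ne ((Option.some_injective _ h4).trans (Option.some_injective _ h3).symm)
  · rw [mem_Dset] at h1 h2
    obtain ⟨h3, h4, h5⟩ := h1
    obtain ⟨h6, h7, h8⟩ := h2
    have hii : i = i' := Option.some_injective _ (h3.symm.trans h6)
    subst hii
    have hb : b ≠ b' := fun h => hne (by rw [h])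
    refine ⟨i, key i h3 h4 ?_⟩
    rcases h5 with h5 | h5
    · exact h5
    · rcases h8 with h8 | h8
      · exact h8
      · exfalso
        cases b <;> cases b' <;> simp only [lo, ne_eq, not_true_eq_false, if_true, if_false,
          Bool.false_eq_true, reduceCtorEq, not_false_eq_true] at hb h5 h8 <;> omega

/-- The points of vertices are in two members of the family. -/
theorem rp_mem (G : SimpleGraph V) (i : V) :
    ∃ E ∈ fam k G, ∃ E' ∈ fam k G, E ≠ E' ∧ rp k i ∈ E ∧ rp k i ∈ E' := by
  have hk := (LL_ge k).1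
  refine ⟨Dset k i true, Or.inr ⟨i, true, rfl⟩, Dset k i false, Or.inr ⟨i, false, rfl⟩, ?_, ?_, ?_⟩
  · intro h
    have h1 : ((some i, some i, ⟨1, by omega⟩) : Pt V k) ∈ Dset k i false := by
      rw [mem_Dset]
      exact ⟨rfl, rfl, Or.inr ⟨by simp [lo], by simp [lo]⟩⟩
    rw [← h, mem_Dset] at h1
    obtain ⟨_, _, h2⟩ := h1
    simp only [lo, if_true] at h2
    omega
  · rw [mem_Dset]
    exact ⟨rfl, rfl, Or.inl rfl⟩
  · rw [mem_Dset]
    exact ⟨rfl, rfl, Or.inl rfl⟩

/-- The points of two different vertices are in a common member if and only if the vertices are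
adjacent. -/
theorem adj_iff (G : SimpleGraph V) (i j : V) :
    G.Adj i j ↔ i ≠ j ∧ ∃ E ∈ fam k G, rp k i ∈ E ∧ rp k j ∈ E := by
  constructor
  · intro h
    refine ⟨h.ne, Eset k i j, Or.inl ⟨i, j, h, rfl⟩, ?_, ?_⟩
    · exact mem_Eset.2 (Or.inl (Or.inl rfl))
    · exact mem_Eset.2 (Or.inl (Or.inr rfl))
  · rintro ⟨hne, E, hE, h1, h2⟩
    have key : ∀ {x a b : V}, a ≠ b → rp k x ∈ Eset k a b → x = a ∨ x = b := by
      intro x a b hab h
      rcases mem_Eset.1 h with (h | h) | h | h
      · exact Or.inl (rp_injective h)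
      · exact Or.inr (rp_injective h)
      · exact absurd ((Option.some_injective _ h.1).symm.trans (Option.some_injective _ h.2.1)) hab
      · exact absurd ((Option.some_injective _ h.2.1).symm.trans (Option.some_injective _ h.1)) hab
    rcases hE with ⟨a, b, hab, rfl⟩ | ⟨a, b, rfl⟩
    · rcases key hab.ne h1 with rfl | rfl <;> rcases key hab.ne h2 with rfl | rfl
      · exact absurd rfl hne
      · exact hab
      · exact hab.symm
      · exact absurd rfl hne
    · exfalso
      rw [mem_Dset] at h1 h2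
      exact hne (Option.some_injective _ (h1.1.trans h2.1.symm))

theorem good_fam (hk : 1 ≤ k) (G : SimpleGraph V) : Good k (fam k G) := by
  constructor
  · rintro E (⟨i, j, hij, rfl⟩ | ⟨i, b, rfl⟩)
    · exact card_Eset hij.ne
    · exact card_Dset i b
  · intro E hE E' hE' hne
    have h1 : ∀ x ∈ E ∩ E', ∃ i, x = rp k i := by
      intro x hx
      rw [Finset.mem_inter] at hx
      exact eq_rp_of_mem hE hE' hne hx.1 hx.2
    -- the points of vertices in `E` are at most two
    have h2 : ∃ a b : V, ∀ i, rp k i ∈ E → i = a ∨ i = b := by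
      rcases hE with ⟨i, j, hij, rfl⟩ | ⟨i, b, rfl⟩
      · refine ⟨i, j, fun x h => ?_⟩
        rcases mem_Eset.1 h with (h | h) | h | h
        · exact Or.inl (rp_injective h)
        · exact Or.inr (rp_injective h)
        · exact absurd ((Option.some_injective _ h.1).symm.trans (Option.some_injective _ h.2.1))
            hij.ne
        · exact absurd ((Option.some_injective _ h.2.1).symm.trans (Option.some_injective _ h.1))
            hij.ne
      · refine ⟨i, i, fun x h => Or.inl ?_⟩
        rw [mem_Dset] at h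
        exact Option.some_injective _ h.1
    obtain ⟨a, b, hab⟩ := h2
    have h3 : E ∩ E' ⊆ {rp k a, rp k b} := by
      intro x hx
      obtain ⟨i, rfl⟩ := h1 x hx
      rw [Finset.mem_inter] at hx
      rw [Finset.mem_insert, Finset.mem_singleton]
      rcases hab i hx.1 with rfl | rfl
      · exact Or.inl rfl
      · exact Or.inr rfl
    have h4 := Finset.card_le_card h3
    have h5 := Finset.card_le_two (a := rp k a) (b := rp k b)
    omega

/-- A graph can be recovered from its family. -/
theorem graph_iso_of_family {W : Type*} [DecidableEq W] {G : SimpleGraph V} {H : SimpleGraph W}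
    (g : Pt V k ≃ Pt W k) (h1 : ∀ E ∈ fam k G, E.map g.toEmbedding ∈ fam k H)
    (h2 : ∀ E ∈ fam k H, E.map g.symm.toEmbedding ∈ fam k G) : Nonempty (G ≃g H) := by
  have key1 : ∀ i : V, ∃ j : W, g (rp k i) = rp k j := by
    intro i
    obtain ⟨E, hE, E', hE', hne, hi1, hi2⟩ := rp_mem (k := k) G i
    refine eq_rp_of_mem (h1 E hE) (h1 E' hE') (fun h => hne (Finset.map_injective _ h)) ?_ ?_
    · exact Finset.mem_map_of_mem _ hi1
    · exact Finset.mem_map_of_mem _ hi2
  have key2 : ∀ i : W, ∃ j : V, g.symm (rp k i) = rp k j := by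
    intro i
    obtain ⟨E, hE, E', hE', hne, hi1, hi2⟩ := rp_mem (k := k) H i
    refine eq_rp_of_mem (h2 E hE) (h2 E' hE') (fun h => hne (Finset.map_injective _ h)) ?_ ?_
    · exact Finset.mem_map_of_mem _ hi1
    · exact Finset.mem_map_of_mem _ hi2
  choose f hf using key1
  choose f' hf' using key2
  refine ⟨⟨⟨f, f', fun i => ?_, fun i => ?_⟩, fun {i j} => ?_⟩⟩
  · apply rp_injective (k := k)
    rw [← hf', ← hf, g.symm_apply_apply]
  · apply rp_injective (k := k)
    rw [← hf, ← hf', g.apply_symm_apply]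
  · show H.Adj (f i) (f j) ↔ G.Adj i j
    have hinj : f i ≠ f j ↔ i ≠ j := by
      rw [not_iff_not]
      constructor
      · intro h
        apply rp_injective (k := k)
        apply g.injective
        rw [hf, hf, h]
      · rintro rfl
        rfl
    rw [adj_iff (k := k) H, adj_iff (k := k) G, hinj]
    refine and_congr_right fun _ => ⟨?_, ?_⟩
    · rintro ⟨E, hE, h3, h4⟩
      refine ⟨_, h2 E hE, ?_, ?_⟩
      · rw [Finset.mem_map_equiv, Equiv.symm_symm, hf]
        exact h3
      · rw [Finset.mem_map_equiv, Equiv.symm_symm, hf]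
        exact h4
    · rintro ⟨E, hE, h3, h4⟩
      refine ⟨_, h1 E hE, ?_, ?_⟩
      · rw [← hf]
        exact Finset.mem_map_of_mem _ h3
      · rw [← hf]
        exact Finset.mem_map_of_mem _ h4

end Pool.Agent.H72.JC
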