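import Pool.Agent.H72.JC.Enc

/-!
# Isomorphic graphs give isomorphic families and isomorphic collinearity graphs
-/

set_option autoImplicit false

namespace Pool.Agent.H72.JC

section

variable {P P' : Type*} [Fintype P] [DecidableEq P] [Fintype P'] [DecidableEq P']

/-- The image of a vertex. -/
def mapR (g : P ≃ P') : Finset P ⊕ Finset P × Finset P ≃ Finset P' ⊕ Finset P' × Finset P' :=
  Equiv.sumCongr (Equiv.finsetCongr g) (Equiv.prodCongr (Equiv.finsetCongr g)
    (Equiv.finsetCongr g))

omit [Fintype P] [DecidableEq P] [Fintype P'] [DecidableEq P'] in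
theorem isVtx_mapR {k : ℕ} {F : Set (Finset P)} {F' : Set (Finset P')} (g : P ≃ P')
    (h : ∀ E, E ∈ F ↔ E.map g.toEmbedding ∈ F')
    (x : Finset P ⊕ Finset P × Finset P) : IsVtx k F x ↔ IsVtx k F' (mapR g x) := by
  rcases x with S | ⟨E, C⟩
  · show (S.card = k + 2 ∧ _) ↔ ((S.map g.toEmbedding).card = k + 2 ∧ _)
    rw [Finset.card_map]
    refine and_congr_right fun _ => ⟨fun h1 E hE h2 => ?_, fun h1 E hE h2 => ?_⟩
    · have h3 : E = (E.map g.symm.toEmbedding).map g.toEmbedding := by
        rw [Finset.map_map]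
        ext x
        simp
      refine h1 (E.map g.symm.toEmbedding) ?_ ?_
      · rw [h, ← h3]
        exact hE
      · intro a ha
        rw [Finset.mem_map_equiv, Equiv.symm_symm]
        exact h2 (Finset.mem_map_of_mem _ ha)
    · exact h1 (E.map g.toEmbedding) ((h E).1 hE) (Finset.map_subset_map.2 h2)
  · show (E ∈ F ∧ C ⊆ E ∧ C.card = k) ↔
      (E.map g.toEmbedding ∈ F' ∧ C.map g.toEmbedding ⊆ E.map g.toEmbedding ∧
        (C.map g.toEmbedding).card = k)
    rw [Finset.card_map, Finset.map_subset_map, ← h]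

omit [Fintype P] [DecidableEq P] [Fintype P'] [DecidableEq P'] in
theorem inc_mapR (g : P ≃ P') (x : Finset P ⊕ Finset P × Finset P) (p : Finset P) :
    Inc (mapR g x) (p.map g.toEmbedding) ↔ Inc x p := by
  rcases x with S | ⟨E, C⟩
  · exact Finset.map_subset_map
  · exact and_congr Finset.map_subset_map Finset.map_subset_map

/-- Isomorphic families give isomorphic graphs. -/
theorem coll_iso_of_family {k : ℕ} {F : Set (Finset P)} {F' : Set (Finset P')} (g : P ≃ P')
    (h : ∀ E, E ∈ F ↔ E.map g.toEmbedding ∈ F') :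
    Nonempty (coll (nd (k := k) (F := F)) ≃g coll (nd (k := k) (F := F'))) := by
  let φ : Vtx k F ≃ Vtx k F' := (mapR g).subtypeEquiv (isVtx_mapR g h)
  have hφ : ∀ x, (φ x).1 = mapR g x.1 := fun _ => rfl
  refine ⟨⟨φ, fun {x y} => ?_⟩⟩
  rw [coll_adj, coll_adj, φ.injective.ne_iff]
  refine and_congr_right fun _ => ⟨?_, ?_⟩
  · rintro ⟨p, h1, h2⟩
    rw [mem_nd, hφ] at h1 h2
    have h3 : p.1 = (p.1.map g.symm.toEmbedding).map g.toEmbedding := by
      rw [Finset.map_map]
      ext x
      simp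
    refine ⟨⟨p.1.map g.symm.toEmbedding, by rw [Finset.card_map, p.2]⟩, ?_, ?_⟩
    · rw [mem_nd, ← inc_mapR g, ← h3]
      exact h1
    · rw [mem_nd, ← inc_mapR g, ← h3]
      exact h2
  · rintro ⟨p, h1, h2⟩
    rw [mem_nd] at h1 h2
    refine ⟨⟨p.1.map g.toEmbedding, by rw [Finset.card_map, p.2]⟩, ?_, ?_⟩
    · rw [mem_nd, hφ, inc_mapR]
      exact h1
    · rw [mem_nd, hφ, inc_mapR]
      exact h2

end

variable {V W : Type*} [DecidableEq V] [DecidableEq W] {k : ℕ}

/-- The bijection of the points given by a bijection of the vertices. -/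
def ptMap (k : ℕ) (φ : V ≃ W) : Pt V k ≃ Pt W k :=
  Equiv.prodCongr (Equiv.optionCongr φ) (Equiv.prodCongr (Equiv.optionCongr φ) (Equiv.refl _))

omit [DecidableEq V] [DecidableEq W] in
theorem map_cell (φ : V ≃ W) (i j : V) (A : Finset (Fin (LL k))) :
    (cell i j A).map (ptMap k φ).toEmbedding = cell (φ i) (φ j) A := by
  ext ⟨a, b, l⟩
  rw [Finset.mem_map_equiv, mem_cell, mem_cell]
  have key : ∀ (a : Option W) (i : V), (Equiv.optionCongr φ).symm a = some i ↔ a = some (φ i) := by
    intro a i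
    rw [Equiv.symm_apply_eq]
    rfl
  exact and_congr (key a i) (and_congr (key b j) Iff.rfl)

theorem map_Eset (φ : V ≃ W) (i j : V) :
    (Eset k i j).map (ptMap k φ).toEmbedding = Eset k (φ i) (φ j) := by
  unfold Eset
  rw [Finset.map_union, Finset.map_union, Finset.map_union, map_cell, map_cell, map_cell, map_cell]

omit [DecidableEq V] [DecidableEq W] in
theorem map_Dset (φ : V ≃ W) (i : V) (b : Bool) :
    (Dset k i b).map (ptMap k φ).toEmbedding = Dset k (φ i) b := by
  unfold Dset
  rw [map_cell]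

theorem mem_fam_map {G : SimpleGraph V} {H : SimpleGraph W} (φ : G ≃g H) (E : Finset (Pt V k)) :
    E ∈ fam k G ↔ E.map (ptMap k φ.toEquiv).toEmbedding ∈ fam k H := by
  constructor
  · rintro (⟨i, j, hij, rfl⟩ | ⟨i, b, rfl⟩)
    · rw [map_Eset]
      exact Or.inl ⟨_, _, φ.map_rel_iff.2 hij, rfl⟩
    · rw [map_Dset]
      exact Or.inr ⟨_, _, rfl⟩
  · rintro (⟨i, j, hij, h⟩ | ⟨i, b, h⟩)
    · refine Or.inl ⟨φ.symm i, φ.symm j, φ.symm.map_rel_iff.2 hij, ?_⟩
      apply Finset.map_injective (ptMap k φ.toEquiv).toEmbedding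
      rw [h, map_Eset]
      congr 1
      · exact (φ.apply_symm_apply i).symm
      · exact (φ.apply_symm_apply j).symm
    · refine Or.inr ⟨φ.symm i, b, ?_⟩
      apply Finset.map_injective (ptMap k φ.toEquiv).toEmbedding
      rw [h, map_Dset]
      congr 1
      exact (φ.apply_symm_apply i).symm

/-- The graph of a graph. -/
noncomputable def big {V : Type*} [Fintype V] [DecidableEq V] (k : ℕ) (G : SimpleGraph V) :
    SimpleGraph (Vtx k (fam k G)) := coll nd

/-- **The construction**: the graph `big k G` determines `G`. -/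
theorem big_iso_iff {V W : Type*} [Fintype V] [DecidableEq V] [Fintype W] [DecidableEq W]
    (hk : 1 ≤ k) (G : SimpleGraph V) (H : SimpleGraph W) :
    Nonempty (big k G ≃g big k H) ↔ Nonempty (G ≃g H) := by
  constructor
  · rintro ⟨φ⟩
    have hV : ∀ (n : ℕ), (k + 2) * (k + 2) + 2 + (k + 1) ≤ (n + 1) * ((n + 1) * LL k) := by
      intro n
      have := (LL_ge k).2
      nlinarith [Nat.zero_le n, Nat.zero_le (n * (LL k)), Nat.zero_le (n * (n * LL k))]
    obtain ⟨g, h1, h2⟩ := family_iso hk (good_fam hk G) (good_fam hk H)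
      (by rw [Fintype.card_prod, Fintype.card_prod, Fintype.card_option, Fintype.card_fin]
          exact hV _)
      (by rw [Fintype.card_prod, Fintype.card_prod, Fintype.card_option, Fintype.card_fin]
          exact hV _) φ
    exact graph_iso_of_family g h1 h2
  · rintro ⟨φ⟩
    exact coll_iso_of_family _ (mem_fam_map φ)

end Pool.Agent.H72.JC
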