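import Pool.Graph.R_seed8.H671R2.ZDefs
import Pool.Graph.R_seed8.NPC.Classes

/-!
# The language of graph isomorphism
-/

set_option autoImplicit false

namespace Pool.Agent.NPC.JC72

open Pool.Agent.NPC.R671

/-- **GRAPH ISOMORPHISM**, as a language: the codes of the pairs of adjacency matrices of isomorphic
graphs. -/
def GI : Set (List Bool) :=
  {x | ∃ (n m : ℕ) (G : SimpleGraph (Fin n)) (H : SimpleGraph (Fin m)),
    x = bits (adjMatrix G, adjMatrix H) ∧ Nonempty (G ≃g H)}

end Pool.Agent.NPC.JC72
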