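import Pool.Agent.H72.JC.Lin

/-!
# Johnson graphs and their automorphisms
-/

set_option autoImplicit false

namespace Pool.Agent.H72.JC

theorem johnson_adj {V : Type*} [DecidableEq V] {d : ℕ} {s t : {s : Finset V // s.card = d}} :
    (johnson V d).Adj s t ↔ (s.1 ∩ t.1).card + 1 = d := Iff.rfl

/-- The `m`-subsets of a set. -/
def subs {P : Type*} [Fintype P] [DecidableEq P] (m : ℕ) (B : Finset P) :
    Finset {p : Finset P // p.card = m} := Finset.univ.filter fun p => p.1 ⊆ B

theorem mem_subs {P : Type*} [Fintype P] [DecidableEq P] {m : ℕ} {B : Finset P}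
    {p : {p : Finset P // p.card = m}} : p ∈ subs m B ↔ p.1 ⊆ B := by
  simp [subs]

theorem card_subs {P : Type*} [Fintype P] [DecidableEq P] (m : ℕ) (B : Finset P) :
    (subs m B).card = B.card.choose m := by
  rw [← Finset.card_powersetCard]
  refine Finset.card_bij (fun p _ => p.1) ?_ ?_ ?_
  · intro p hp
    rw [Finset.mem_powersetCard]
    exact ⟨mem_subs.1 hp, p.2⟩
  · intro p _ q _ h
    exact Subtype.ext h
  · intro p hp
    rw [Finset.mem_powersetCard] at hp
    exact ⟨⟨p, hp.2⟩, mem_subs.2 hp.1, rfl⟩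

section Basic

variable {P : Type*} [Fintype P] [DecidableEq P]

omit [Fintype P] in
/-- The union of two different `m`-subsets of an `m + 1`-set is this set. -/
theorem union_eq {m : ℕ} {p q B : Finset P} (hp : p.card = m) (hq : q.card = m) (hne : p ≠ q)
    (h1 : p ⊆ B) (h2 : q ⊆ B) (hB : B.card = m + 1) : p ∪ q = B := by
  refine Finset.eq_of_subset_of_card_le (Finset.union_subset h1 h2) ?_
  rw [hB]
  by_contra h
  push Not at h
  have h3 : p.card = (p ∪ q).card :=
    le_antisymm (Finset.card_le_card Finset.subset_union_left) (by omega)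
  have h4 : p = p ∪ q := Finset.eq_of_subset_of_card_le Finset.subset_union_left h3.symm.le
  have h5 : q ⊆ p := by
    rw [h4]
    exact Finset.subset_union_right
  exact hne (Finset.eq_of_subset_of_card_le h5 (by omega)).symm

omit [Fintype P] in
theorem card_union_eq {m : ℕ} {p q : Finset P} (hp : p.card = m) (hq : q.card = m) :
    (p ∪ q).card + (p ∩ q).card = m + m := by
  rw [Finset.card_union_add_card_inter, hp, hq]

theorem linear_subs (m : ℕ) :
    Linear (fun B : {B : Finset P // B.card = m + 1} => subs m B.1) := by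
  intro a b p q hpq h1 h2 h3 h4
  rw [mem_subs] at h1 h2 h3 h4
  have hne : p.1 ≠ q.1 := fun h => hpq (Subtype.ext h)
  exact Subtype.ext ((union_eq p.2 q.2 hne h1 h2 a.2).symm.trans
    (union_eq p.2 q.2 hne h3 h4 b.2))

theorem coll_subs (m : ℕ) :
    coll (fun B : {B : Finset P // B.card = m + 1} => subs m B.1) = johnson P (m + 1) := by
  ext a b
  rw [coll_adj, johnson_adj]
  constructor
  · rintro ⟨hne, p, hp, hq⟩
    rw [mem_subs] at hp hq
    have h1 : p.1 ⊆ a.1 ∩ b.1 := Finset.subset_inter hp hq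
    have h2 := Finset.card_le_card h1
    rw [p.2] at h2
    have h3 : (a.1 ∩ b.1).card < m + 1 := by
      by_contra h
      push Not at h
      have h4 : a.1 ∩ b.1 = a.1 := Finset.eq_of_subset_of_card_le Finset.inter_subset_left
        (by rw [a.2]; exact h)
      have h5 : a.1 ∩ b.1 = b.1 := Finset.eq_of_subset_of_card_le Finset.inter_subset_right
        (by rw [b.2]; exact h)
      exact hne (Subtype.ext (h4.symm.trans h5))
    omega
  · intro h
    refine ⟨?_, ⟨a.1 ∩ b.1, by omega⟩, ?_, ?_⟩
    · rintro rfl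
      rw [Finset.inter_self, a.2] at h
      omega
    · exact mem_subs.2 Finset.inter_subset_left
    · exact mem_subs.2 Finset.inter_subset_right

theorem card_supers {m : ℕ} (p : {p : Finset P // p.card = m}) :
    Fintype.card P ≤ m + (Finset.univ.filter fun B : {B : Finset P // B.card = m + 1} =>
      p ∈ subs m B.1).card := by
  have h1 : Fintype.card P = p.1.card + (Finset.univ \ p.1).card := by
    rw [← Finset.card_univ, add_comm, Finset.card_sdiff_add_card_eq_card (Finset.subset_univ _)]
  rw [h1, p.2]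
  refine Nat.add_le_add_left ?_ m
  have h2 : (Finset.univ \ p.1).card = ((Finset.univ \ p.1).image fun x => insert x p.1).card := by
    rw [Finset.card_image_of_injOn]
    intro x hx y hy hxy
    simp only [Finset.coe_sdiff, Finset.coe_univ, Set.mem_sdiff, Set.mem_univ, true_and,
      Finset.mem_coe] at hx hy
    have h3 : x ∈ insert y p.1 := by
      rw [← show insert x p.1 = insert y p.1 from hxy]
      exact Finset.mem_insert_self _ _
    rcases Finset.mem_insert.1 h3 with h4 | h4
    · exact h4
    · exact absurd h4 hx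
  rw [h2]
  refine le_trans (Finset.card_le_card ?_) (Finset.card_image_le (f := Subtype.val))
  intro B hB
  rw [Finset.mem_image] at hB ⊢
  obtain ⟨x, hx, rfl⟩ := hB
  rw [Finset.mem_sdiff] at hx
  refine ⟨⟨insert x p.1, by rw [Finset.card_insert_of_notMem hx.2, p.2]⟩, ?_, rfl⟩
  rw [Finset.mem_filter]
  exact ⟨Finset.mem_univ _, mem_subs.2 (Finset.subset_insert _ _)⟩

omit [Fintype P] in
/-- Two `m + 1`-sets are adjacent if they are different and contained in an `m + 2`-set. -/
theorem johnson_adj_iff {m : ℕ} (p q : {p : Finset P // p.card = m + 1}) :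
    (johnson P (m + 1)).Adj p q ↔ p ≠ q ∧ ∃ B : {B : Finset P // B.card = m + 1 + 1},
      p.1 ⊆ B.1 ∧ q.1 ⊆ B.1 := by
  rw [johnson_adj]
  have h1 := card_union_eq p.2 q.2
  constructor
  · intro h
    refine ⟨?_, ⟨p.1 ∪ q.1, by omega⟩, Finset.subset_union_left, Finset.subset_union_right⟩
    rintro rfl
    rw [Finset.inter_self, p.2] at h
    omega
  · rintro ⟨hne, B, hB1, hB2⟩
    have h2 := union_eq p.2 q.2 (fun h => hne (Subtype.ext h)) hB1 hB2 B.2
    rw [h2, B.2] at h1
    omega

/-- Every automorphism of a Johnson graph on sufficiently many points is induced by a permutation of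
the points. -/
theorem johnson_aut {P' : Type*} [Fintype P'] [DecidableEq P'] : ∀ (m : ℕ),
    (m + 1) * (m + 1) + 2 + m ≤ Fintype.card P → (m + 1) * (m + 1) + 2 + m ≤ Fintype.card P' →
    ∀ ψ : johnson P (m + 1) ≃g johnson P' (m + 1),
      ∃ g : P ≃ P', ∀ s, (ψ s).1 = s.1.map g.toEmbedding := by
  intro m
  induction m with
  | zero =>
    intro _ _ ψ
    have h1 : ∀ x : P, ∃ y : P', (ψ ⟨{x}, Finset.card_singleton x⟩).1 = {y} := fun x =>
      Finset.card_eq_one.1 (ψ ⟨{x}, Finset.card_singleton x⟩).2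
    have h2 : ∀ y : P', ∃ x : P, (ψ.symm ⟨{y}, Finset.card_singleton y⟩).1 = {x} := fun y =>
      Finset.card_eq_one.1 (ψ.symm ⟨{y}, Finset.card_singleton y⟩).2
    choose f hf using h1
    choose g hg using h2
    have hf' : ∀ x, ψ ⟨{x}, Finset.card_singleton x⟩ = ⟨{f x}, Finset.card_singleton _⟩ :=
      fun x => Subtype.ext (hf x)
    have hg' : ∀ y, ψ.symm ⟨{y}, Finset.card_singleton y⟩ = ⟨{g y}, Finset.card_singleton _⟩ :=
      fun y => Subtype.ext (hg y)
    refine ⟨⟨f, g, fun x => ?_, fun y => ?_⟩, fun s => ?_⟩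
    · have h3 := hg' (f x)
      rw [← hf' x, ψ.symm_apply_apply] at h3
      exact (Finset.singleton_injective (congrArg Subtype.val h3)).symm
    · have h3 := hf' (g y)
      rw [← hg' y, ψ.apply_symm_apply] at h3
      exact (Finset.singleton_injective (congrArg Subtype.val h3)).symm
    · obtain ⟨s, hs⟩ := s
      obtain ⟨x, rfl⟩ := Finset.card_eq_one.1 hs
      rw [hf x, Finset.map_singleton]
      rfl
  | succ m ih =>
    intro hP hP' ψ
    have hcP : ∀ p : {p : Finset P // p.card = m + 1}, (m + 1 + 1) * (m + 1 + 1) + 2 ≤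
        (Finset.univ.filter fun B : {B : Finset P // B.card = m + 1 + 1} =>
          p ∈ subs (m + 1) B.1).card := fun p => by
      have := card_supers p
      omega
    have hcP' : ∀ p : {p : Finset P' // p.card = m + 1}, (m + 1 + 1) * (m + 1 + 1) + 2 ≤
        (Finset.univ.filter fun B : {B : Finset P' // B.card = m + 1 + 1} =>
          p ∈ subs (m + 1) B.1).card := fun p => by
      have := card_supers p
      omega
    obtain ⟨χ, hχ⟩ := exists_node_equiv
      (nd := fun B : {B : Finset P // B.card = m + 1 + 1} => subs (m + 1) B.1)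
      (nd' := fun B : {B : Finset P' // B.card = m + 1 + 1} => subs (m + 1) B.1)
      (m := m + 1 + 1)
      (fun a => by
        rw [card_subs, a.2, Nat.choose_succ_self_right])
      (fun a => by
        rw [card_subs, a.2, Nat.choose_succ_self_right])
      (linear_subs (m + 1)) (linear_subs (m + 1)) hcP hcP'
      ⟨ψ.toEquiv, fun {a b} => by
        rw [coll_subs, coll_subs]
        exact ψ.map_rel_iff⟩
    have hχ1 : ∀ (a : {B : Finset P // B.card = m + 1 + 1}) (p : {p : Finset P // p.card = m + 1}),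
        p.1 ⊆ a.1 ↔ (χ p).1 ⊆ (ψ a).1 := fun a p => by
      have := hχ a p
      rw [mem_subs, mem_subs] at this
      exact this
    have hχ2 : ∀ p q : {p : Finset P // p.card = m + 1},
        (johnson P' (m + 1)).Adj (χ p) (χ q) ↔ (johnson P (m + 1)).Adj p q := by
      intro p q
      rw [johnson_adj_iff, johnson_adj_iff, χ.injective.ne_iff]
      refine and_congr_right fun _ => ⟨?_, ?_⟩
      · rintro ⟨B, h1, h2⟩
        obtain ⟨A, rfl⟩ := ψ.surjective B
        exact ⟨A, (hχ1 A p).2 h1, (hχ1 A q).2 h2⟩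
      · rintro ⟨A, h1, h2⟩
        exact ⟨ψ A, (hχ1 A p).1 h1, (hχ1 A q).1 h2⟩
    obtain ⟨g, hg⟩ := ih (by nlinarith) (by nlinarith) ⟨χ, fun {p q} => hχ2 p q⟩
    refine ⟨g, fun s => ?_⟩
    symm
    refine Finset.eq_of_subset_of_card_le ?_ ?_
    · intro y hy
      rw [Finset.mem_map] at hy
      obtain ⟨x, hx, rfl⟩ := hy
      obtain ⟨z, hz, hzx⟩ : ∃ z ∈ s.1, z ≠ x := Finset.exists_mem_ne (by rw [s.2]; omega) x
      have h1 : (s.1.erase z).card = m + 1 := by
        rw [Finset.card_erase_of_mem hz, s.2]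
        omega
      have h2 := (hχ1 s ⟨s.1.erase z, h1⟩).1 (Finset.erase_subset _ _)
      have h3 : (χ ⟨s.1.erase z, h1⟩).1 = _ := hg ⟨s.1.erase z, h1⟩
      rw [h3] at h2
      apply h2
      rw [Finset.mem_map]
      exact ⟨x, Finset.mem_erase.2 ⟨hzx.symm, hx⟩, rfl⟩
    · rw [Finset.card_map, s.2, (ψ s).2]

end Basic

end Pool.Agent.H72.JC
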