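import Pool.Agent.H72.JC.Func

/-!
# Finite sets as lists of numbers
-/

set_option autoImplicit false

namespace Pool.Agent.H72.JC

section

variable {P : Type*} [DecidableEq P] {v : ℕ} (e : P ≃ Fin v)

/-- The list of the numbers of the elements of a set, in increasing order. -/
def lab (S : Finset P) : List ℕ :=
  (List.range v).filter fun x => decide (∃ h : x < v, e.symm ⟨x, h⟩ ∈ S)

variable {e}

theorem mem_lab {S : Finset P} {x : ℕ} : x ∈ lab e S ↔ ∃ a ∈ S, (e a : ℕ) = x := by
  rw [lab, List.mem_filter, List.mem_range, decide_eq_true_eq]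
  constructor
  · rintro ⟨_, h, h1⟩
    exact ⟨_, h1, by rw [e.apply_symm_apply]⟩
  · rintro ⟨a, ha, rfl⟩
    refine ⟨(e a).2, (e a).2, ?_⟩
    rw [show (⟨((e a : Fin v) : ℕ), (e a).2⟩ : Fin v) = e a from rfl, e.symm_apply_apply]
    exact ha

theorem mem_lab' {S : Finset P} {a : P} : (e a : ℕ) ∈ lab e S ↔ a ∈ S := by
  rw [mem_lab]
  constructor
  · rintro ⟨b, hb, h⟩
    rwa [← e.injective (Fin.ext h)]
  · intro h
    exact ⟨a, h, rfl⟩

theorem pairwise_lab (S : Finset P) : (lab e S).Pairwise (· < ·) :=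
  List.Pairwise.filter _ List.pairwise_lt_range

theorem nodup_lab (S : Finset P) : (lab e S).Nodup := (pairwise_lab S).imp fun h => h.ne

theorem length_lab (S : Finset P) : (lab e S).length = S.card := by
  have h1 : (lab e S).toFinset = S.map (e.toEmbedding.trans Fin.valEmbedding) := by
    ext x
    rw [List.mem_toFinset, mem_lab, Finset.mem_map]
    rfl
  rw [← List.toFinset_card_of_nodup (nodup_lab S), h1, Finset.card_map]

theorem lab_injective : Function.Injective (lab e) := by
  intro S T h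
  ext a
  rw [← mem_lab' (e := e), h, mem_lab']

/-- Increasing lists with the same elements are equal. -/
theorem eq_of_mem_iff {l l' : List ℕ} (h1 : l.Pairwise (· < ·)) (h2 : l'.Pairwise (· < ·))
    (h : ∀ x, x ∈ l ↔ x ∈ l') : l = l' := by
  refine List.Perm.eq_of_pairwise (le := (· < ·)) (fun a b _ _ h3 h4 => absurd h3 h4.asymm) h1 h2 ?_
  exact (List.perm_ext_iff_of_nodup (h1.imp fun h => h.ne) (h2.imp fun h => h.ne)).2 h

theorem lab_filter (S : Finset P) (q : ℕ → Bool) :
    (lab e S).filter q = lab e (S.filter fun a => q (e a) = true) := by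
  refine eq_of_mem_iff ((pairwise_lab S).filter _) (pairwise_lab _) fun x => ?_
  rw [List.mem_filter, mem_lab, mem_lab]
  constructor
  · rintro ⟨⟨a, ha, rfl⟩, h⟩
    exact ⟨a, Finset.mem_filter.2 ⟨ha, h⟩, rfl⟩
  · rintro ⟨a, ha, rfl⟩
    rw [Finset.mem_filter] at ha
    exact ⟨⟨a, ha.1, rfl⟩, ha.2⟩

theorem all_lab {S E : Finset P} :
    ((lab e S).all fun x => decide (x ∈ lab e E)) = true ↔ S ⊆ E := by
  rw [List.all_eq_true]
  simp only [decide_eq_true_eq]
  constructor
  · intro h a ha
    exact mem_lab'.1 (h _ (mem_lab'.2 ha))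
  · intro h x hx
    obtain ⟨a, ha, rfl⟩ := mem_lab.1 hx
    exact mem_lab'.2 (h ha)

end

/-- The lists of length `m` of numbers less than `v`. -/
def tup (v : ℕ) : ℕ → List (List ℕ)
  | 0 => [[]]
  | m + 1 => (List.range v).flatMap fun a => (tup v m).map fun l => a :: l

theorem mem_tup {v : ℕ} : ∀ {m : ℕ} {l : List ℕ},
    l ∈ tup v m ↔ l.length = m ∧ ∀ x ∈ l, x < v
  | 0, l => by
    rw [tup, List.mem_singleton]
    constructor
    · rintro rfl
      simp
    · intro h
      exact List.eq_nil_of_length_eq_zero h.1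
  | m + 1, l => by
    rw [tup, List.mem_flatMap]
    constructor
    · rintro ⟨a, ha, h⟩
      rw [List.mem_map] at h
      obtain ⟨l', h1, rfl⟩ := h
      rw [mem_tup] at h1
      rw [List.mem_range] at ha
      refine ⟨by simp [h1.1], fun x hx => ?_⟩
      rw [List.mem_cons] at hx
      rcases hx with rfl | hx
      · exact ha
      · exact h1.2 x hx
    · rintro ⟨h1, h2⟩
      cases l with
      | nil => simp at h1
      | cons a l =>
        refine ⟨a, List.mem_range.2 (h2 a (by simp)), List.mem_map.2 ⟨l, mem_tup.2 ⟨?_, ?_⟩, rfl⟩⟩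
        · simpa using h1
        · exact fun x hx => h2 x (by simp [hx])

theorem nodup_tup (v : ℕ) : ∀ m : ℕ, (tup v m).Nodup
  | 0 => by simp [tup]
  | m + 1 => by
    rw [tup, List.nodup_flatMap]
    refine ⟨fun a _ => ?_, ?_⟩
    · exact (nodup_tup v m).map fun l l' h => (List.cons.inj h).2
    · refine (List.nodup_range (n := v)).imp fun {a b} hab => ?_
      rw [Function.onFun, List.disjoint_left]
      intro l h1 h2
      rw [List.mem_map] at h1 h2
      obtain ⟨l1, _, rfl⟩ := h1
      obtain ⟨l2, _, h3⟩ := h2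
      exact hab (List.cons.inj h3).1.symm

/-- The test for increasing lists. -/
def incr (l : List ℕ) : Bool := (l.zip l.tail).all fun p => decide (p.1 < p.2)

theorem incr_iff : ∀ {l : List ℕ}, incr l = true ↔ l.Pairwise (· < ·)
  | [] => by simp [incr]
  | [a] => by simp [incr]
  | a :: b :: l => by
    have ih := incr_iff (l := b :: l)
    have h1 : incr (a :: b :: l) = (decide (a < b) && incr (b :: l)) := rfl
    rw [h1, Bool.and_eq_true, ih, decide_eq_true_eq, List.pairwise_cons (a := a)]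
    refine ⟨fun h => ⟨fun x hx => ?_, h.2⟩, fun h => ⟨h.1 b (by simp), h.2⟩⟩
    rw [List.mem_cons] at hx
    rcases hx with rfl | hx
    · exact h.1
    · exact h.1.trans ((List.pairwise_cons.1 h.2).1 x hx)

/-- The increasing lists of length `m` of numbers less than `v`. -/
def subsL (v m : ℕ) : List (List ℕ) := (tup v m).filter incr

theorem nodup_subsL (v m : ℕ) : (subsL v m).Nodup := (nodup_tup v m).filter _

theorem mem_subsL' {v m : ℕ} {l : List ℕ} :
    l ∈ subsL v m ↔ l.length = m ∧ (∀ x ∈ l, x < v) ∧ l.Pairwise (· < ·) := by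
  rw [subsL, List.mem_filter, mem_tup, incr_iff, and_assoc]

variable {P : Type*} [Fintype P] [DecidableEq P] {v : ℕ} {e : P ≃ Fin v}

theorem mem_subsL {m : ℕ} {l : List ℕ} :
    l ∈ subsL v m ↔ ∃ S : Finset P, S.card = m ∧ lab e S = l := by
  rw [mem_subsL']
  constructor
  · rintro ⟨h1, h2, h3⟩
    have h4 : lab e (Finset.univ.filter fun a => (e a : ℕ) ∈ l) = l := by
      refine eq_of_mem_iff (pairwise_lab _) h3 fun x => ?_
      rw [mem_lab]
      constructor
      · rintro ⟨a, ha, rfl⟩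
        rw [Finset.mem_filter] at ha
        exact ha.2
      · intro hx
        refine ⟨e.symm ⟨x, h2 x hx⟩, ?_, by rw [e.apply_symm_apply]⟩
        rw [Finset.mem_filter, e.apply_symm_apply]
        exact ⟨Finset.mem_univ _, hx⟩
    refine ⟨_, ?_, h4⟩
    rw [← length_lab (e := e), h4, h1]
  · rintro ⟨S, rfl, rfl⟩
    refine ⟨length_lab S, fun x hx => ?_, pairwise_lab S⟩
    obtain ⟨a, _, rfl⟩ := mem_lab.1 hx
    exact (e a).2

/-! ### Labels of vertices -/

/-- Labels of vertices. -/
abbrev Lb : Type := List ℕ ⊕ List ℕ × List ℕ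

variable (e) in
/-- The label of a vertex. -/
def lb : Finset P ⊕ Finset P × Finset P → Lb := Sum.map (lab e) (Prod.map (lab e) (lab e))

omit [Fintype P] in
theorem lb_injective : Function.Injective (lb e) :=
  lab_injective.sumMap (lab_injective.prodMap lab_injective)

/-- The nodes of a label. -/
def nodesL (x : Lb) : List (List ℕ) :=
  Sum.elim (fun S => S.map fun x => S.filter fun y => !decide (y = x))
    (fun p => (p.1.filter fun x => !decide (x ∈ p.2)).map fun x =>
      p.1.filter fun y => decide (y = x) || decide (y ∈ p.2)) x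

omit [Fintype P] in
theorem mem_nodesL {k : ℕ} {F : Set (Finset P)} {x : Finset P ⊕ Finset P × Finset P}
    (hx : IsVtx k F x) (l : List ℕ) :
    l ∈ nodesL (lb e x) ↔ ∃ p : Finset P, p.card = k + 1 ∧ Inc x p ∧ lab e p = l := by
  rcases x with S | ⟨E, C⟩
  · show l ∈ (lab e S).map (fun x => (lab e S).filter fun y => !decide (y = x)) ↔ _
    have h1 : ∀ a : P, ((lab e S).filter fun y => !decide (y = (e a : ℕ))) = lab e (S.erase a) := by
      intro a
      rw [lab_filter]
      congr 1
      ext b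
      rw [Finset.mem_filter, Finset.mem_erase, Bool.not_eq_true', decide_eq_false_iff_not,
        Fin.val_inj, e.injective.eq_iff, and_comm]
    rw [List.mem_map]
    constructor
    · rintro ⟨x, hx', rfl⟩
      obtain ⟨a, ha, rfl⟩ := mem_lab.1 hx'
      refine ⟨S.erase a, ?_, Finset.erase_subset _ _, (h1 a).symm⟩
      rw [Finset.card_erase_of_mem ha, hx.1]
      omega
    · rintro ⟨p, hp, h2, rfl⟩
      have h3 : (S \ p).card = 1 := by
        rw [Finset.card_sdiff_of_subset h2, hx.1, hp]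
        omega
      obtain ⟨a, ha⟩ := Finset.card_eq_one.1 h3
      have ha' : a ∈ S \ p := by rw [ha]; exact Finset.mem_singleton_self a
      rw [Finset.mem_sdiff] at ha'
      refine ⟨e a, mem_lab'.2 ha'.1, ?_⟩
      rw [h1]
      congr 1
      rw [Finset.erase_eq, ← ha, Finset.sdiff_sdiff_eq_self h2]
  · obtain ⟨hE, hCE, hC⟩ := hx
    show l ∈ ((lab e E).filter fun x => !decide (x ∈ lab e C)).map (fun x =>
      (lab e E).filter fun y => decide (y = x) || decide (y ∈ lab e C)) ↔ _
    have h1 : ∀ a ∈ E, ((lab e E).filter fun y => decide (y = (e a : ℕ)) ||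
        decide (y ∈ lab e C)) = lab e (insert a C) := by
      intro a ha
      rw [lab_filter]
      congr 1
      ext b
      rw [Finset.mem_filter, Finset.mem_insert, Bool.or_eq_true, decide_eq_true_eq,
        decide_eq_true_eq, Fin.val_inj, e.injective.eq_iff, mem_lab']
      constructor
      · exact fun h => h.2
      · rintro (rfl | h)
        · exact ⟨ha, Or.inl rfl⟩
        · exact ⟨hCE h, Or.inr h⟩
    rw [List.mem_map]
    constructor
    · rintro ⟨x, hx', rfl⟩
      rw [List.mem_filter, Bool.not_eq_true', decide_eq_false_iff_not] at hx'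
      obtain ⟨a, ha, rfl⟩ := mem_lab.1 hx'.1
      have haC : a ∉ C := fun h => hx'.2 (mem_lab'.2 h)
      refine ⟨insert a C, ?_, ⟨Finset.subset_insert _ _, Finset.insert_subset ha hCE⟩,
        (h1 a ha).symm⟩
      rw [Finset.card_insert_of_notMem haC, hC]
    · rintro ⟨p, hp, h2, rfl⟩
      have h3 : (p \ C).card = 1 := by
        rw [Finset.card_sdiff_of_subset h2.1, hp, hC]
        omega
      obtain ⟨a, ha⟩ := Finset.card_eq_one.1 h3
      have ha' : a ∈ p \ C := by rw [ha]; exact Finset.mem_singleton_self a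
      rw [Finset.mem_sdiff] at ha'
      refine ⟨e a, ?_, ?_⟩
      · rw [List.mem_filter, Bool.not_eq_true', decide_eq_false_iff_not, mem_lab', mem_lab']
        exact ⟨h2.2 ha'.1, ha'.2⟩
      · rw [h1 a (h2.2 ha'.1)]
        congr 1
        rw [← Finset.sdiff_union_of_subset h2.1, ha]
        rfl

/-- The adjacency of labels. -/
def adjL (a b : Lb) : Bool := !decide (a = b) && (nodesL a).any fun p => decide (p ∈ nodesL b)

theorem adjL_comm (a b : Lb) : adjL a b = adjL b a := by
  rw [Bool.eq_iff_iff]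
  simp only [adjL, Bool.and_eq_true, Bool.not_eq_true', decide_eq_false_iff_not, List.any_eq_true,
    decide_eq_true_eq]
  constructor <;> rintro ⟨h1, p, h2, h3⟩ <;> exact ⟨fun h => h1 h.symm, p, h3, h2⟩

theorem adjL_self (a : Lb) : adjL a a = false := by
  simp [adjL]

theorem adjL_iff {k : ℕ} {F : Set (Finset P)} (x y : Vtx k F) :
    adjL (lb e x.1) (lb e y.1) = true ↔ (coll (nd (k := k) (F := F))).Adj x y := by
  simp only [adjL, Bool.and_eq_true, Bool.not_eq_true', decide_eq_false_iff_not, List.any_eq_true,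
    decide_eq_true_eq, coll_adj, mem_nodesL x.2, mem_nodesL y.2, mem_nd]
  rw [lb_injective.eq_iff, ← Subtype.ext_iff]
  refine and_congr_right fun _ => ⟨?_, ?_⟩
  · rintro ⟨l, ⟨p, hp, h1, rfl⟩, q, hq, h2, h3⟩
    rw [lab_injective h3] at h2
    exact ⟨⟨p, hp⟩, h1, h2⟩
  · rintro ⟨p, h1, h2⟩
    exact ⟨lab e p.1, ⟨p.1, p.2, h1, rfl⟩, p.1, p.2, h2, rfl⟩

/-- The list of the labels of the vertices; `fl` is the list of the labels of the family. -/
def vsL (k v : ℕ) (fl : List (List ℕ)) : List Lb :=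
  ((subsL v (k + 2)).filter fun S => !(fl.any fun E => S.all fun x => decide (x ∈ E))).map Sum.inl
  ++ ((subsL v (2 * k + 2)).filter fun E => decide (E ∈ fl)).flatMap fun E =>
    ((subsL v k).filter fun C => C.all fun x => decide (x ∈ E)).map fun C => Sum.inr (E, C)

theorem nodup_vsL (k v : ℕ) (fl : List (List ℕ)) : (vsL k v fl).Nodup := by
  rw [vsL, List.nodup_append']
  refine ⟨((nodup_subsL _ _).filter _).map Sum.inl_injective, ?_, ?_⟩
  · rw [List.nodup_flatMap]
    refine ⟨fun E _ => ?_, ?_⟩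
    · refine ((nodup_subsL _ _).filter _).map fun C C' h => ?_
      exact (Prod.mk.inj (Sum.inr.inj h)).2
    · refine ((nodup_subsL _ _).filter _).imp fun {E E'} hEE => ?_
      rw [Function.onFun, List.disjoint_left]
      intro l h1 h2
      rw [List.mem_map] at h1 h2
      obtain ⟨l1, _, rfl⟩ := h1
      obtain ⟨l2, _, h3⟩ := h2
      exact hEE (Prod.mk.inj (Sum.inr.inj h3)).1.symm
  · rw [List.disjoint_left]
    intro l h1 h2
    rw [List.mem_map] at h1
    rw [List.mem_flatMap] at h2
    obtain ⟨l1, _, rfl⟩ := h1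
    obtain ⟨E, _, h2⟩ := h2
    rw [List.mem_map] at h2
    obtain ⟨C, _, h2⟩ := h2
    simp at h2

theorem mem_vsL {k : ℕ} {F : Set (Finset P)} (hF : Good k F) {fl : List (List ℕ)}
    (hfl : ∀ l, l ∈ fl ↔ ∃ E ∈ F, lab e E = l) (z : Lb) :
    z ∈ vsL k v fl ↔ ∃ x : Vtx k F, lb e x.1 = z := by
  have hmem : ∀ E : Finset P, lab e E ∈ fl ↔ E ∈ F := by
    intro E
    rw [hfl]
    constructor
    · rintro ⟨E', h1, h2⟩
      rwa [← lab_injective h2]
    · intro h
      exact ⟨E, h, rfl⟩
  rw [vsL, List.mem_append, List.mem_map, List.mem_flatMap]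
  constructor
  · rintro (⟨l, h1, rfl⟩ | ⟨l, h1, h2⟩)
    · rw [List.mem_filter, mem_subsL (e := e)] at h1
      obtain ⟨⟨S, hS, rfl⟩, h2⟩ := h1
      refine ⟨⟨Sum.inl S, hS, fun E hE hSE => ?_⟩, rfl⟩
      rw [Bool.not_eq_true', List.any_eq_false] at h2
      exact h2 (lab e E) ((hmem E).2 hE) (all_lab.2 hSE)
    · rw [List.mem_filter, mem_subsL (e := e), decide_eq_true_eq] at h1
      obtain ⟨⟨E, hE, rfl⟩, h3⟩ := h1
      rw [List.mem_map] at h2
      obtain ⟨l, h4, rfl⟩ := h2
      rw [List.mem_filter, mem_subsL (e := e)] at h4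
      obtain ⟨⟨C, hC, rfl⟩, h5⟩ := h4
      exact ⟨⟨Sum.inr (E, C), (hmem E).1 h3, all_lab.1 h5, hC⟩, rfl⟩
  · rintro ⟨⟨S | ⟨E, C⟩, hx⟩, rfl⟩
    · refine Or.inl ⟨lab e S, ?_, rfl⟩
      rw [List.mem_filter, mem_subsL (e := e), Bool.not_eq_true', List.any_eq_false]
      refine ⟨⟨S, hx.1, rfl⟩, fun l hl h => ?_⟩
      obtain ⟨E, hE, rfl⟩ := (hfl l).1 hl
      exact hx.2 E hE (all_lab.1 h)
    · obtain ⟨hE, hCE, hC⟩ := hx
      refine Or.inr ⟨lab e E, ?_, ?_⟩
      · rw [List.mem_filter, mem_subsL (e := e), decide_eq_true_eq]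
        exact ⟨⟨E, hF.card E hE, rfl⟩, (hmem E).2 hE⟩
      · rw [List.mem_map]
        refine ⟨lab e C, ?_, rfl⟩
        rw [List.mem_filter, mem_subsL (e := e)]
        exact ⟨⟨C, hC, rfl⟩, all_lab.2 hCE⟩

end Pool.Agent.H72.JC
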