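import Pool.Agent.H72.JC.Defs

/-!
# Reconstructing a partial linear space from its collinearity graph

`nd a` is the (small) set of nodes of the vertex `a`; two different vertices are adjacent if they
share a node. If two different nodes are in at most one common vertex, and each node is in many
vertices, then the nodes are determined by the adjacency.
-/

set_option autoImplicit false

namespace Pool.Agent.H72.JC

/-- Two vertices are adjacent if they are different and share a node. -/
def coll {V Q : Type*} (nd : V → Finset Q) : SimpleGraph V where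
  Adj a b := a ≠ b ∧ ∃ p, p ∈ nd a ∧ p ∈ nd b
  symm := ⟨fun _ _ h => ⟨h.1.symm, h.2.imp fun _ hp => hp.symm⟩⟩
  loopless := ⟨fun _ h => h.1 rfl⟩

theorem coll_adj {V Q : Type*} {nd : V → Finset Q} {a b : V} :
    (coll nd).Adj a b ↔ a ≠ b ∧ ∃ p, p ∈ nd a ∧ p ∈ nd b := Iff.rfl

/-- Linearity: two different nodes are in at most one common vertex. -/
def Linear {V Q : Type*} (nd : V → Finset Q) : Prop :=
  ∀ a b p q, p ≠ q → p ∈ nd a → q ∈ nd a → p ∈ nd b → q ∈ nd b → a = b

/-- Large cliques have a common node. -/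
theorem exists_common {V Q : Type*} {nd : V → Finset Q} {m : ℕ} (ha : ∀ a, (nd a).card ≤ m)
    (hb : Linear nd) (K : Finset V) (hK : ∀ a ∈ K, ∀ b ∈ K, a ≠ b → ∃ p, p ∈ nd a ∧ p ∈ nd b)
    (hc : m * m + 2 ≤ K.card) : ∃ p, ∀ a ∈ K, p ∈ nd a := by
  classical
  obtain ⟨t, ht⟩ : K.Nonempty := Finset.card_pos.1 (by omega)
  have h1 : ∀ b : V, b ∈ K.erase t → ∃ p, p ∈ nd t ∧ p ∈ nd b := by
    intro b hb'
    rw [Finset.mem_erase] at hb'
    exact hK t ht b hb'.2 hb'.1.symm
  haveI : Nonempty Q := by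
    obtain ⟨b, hb0⟩ : (K.erase t).Nonempty := Finset.card_pos.1 (by
      rw [Finset.card_erase_of_mem ht]
      omega)
    exact ⟨(h1 b hb0).choose⟩
  choose! f hf using h1
  have hcard : (nd t).card * m < (K.erase t).card := by
    rw [Finset.card_erase_of_mem ht]
    have := Nat.mul_le_mul_right m (ha t)
    omega
  obtain ⟨p, hp, hp2⟩ := Finset.exists_lt_card_fiber_of_mul_lt_card_of_maps_to
    (f := f) (fun b hb' => (hf b hb').1) hcard
  refine ⟨p, fun s hs => ?_⟩
  by_contra hsp
  set F := (K.erase t).filter fun b => f b = p with hF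
  have h2 : ∀ b ∈ F, p ∈ nd b := by
    intro b hb'
    rw [hF, Finset.mem_filter] at hb'
    rw [← hb'.2]
    exact (hf b hb'.1).2
  have h3 : ∀ b : V, b ∈ F → ∃ q, q ∈ nd s ∧ q ∈ nd b := by
    intro b hb'
    have h4 := h2 b hb'
    rw [hF, Finset.mem_filter, Finset.mem_erase] at hb'
    refine hK s hs b hb'.1.2 ?_
    rintro rfl
    exact hsp h4
  choose! g hg using h3
  have hcard2 : (nd s).card < F.card := lt_of_le_of_lt (ha s) hp2
  obtain ⟨b, hb1, b', hb2, hne, heq⟩ := Finset.exists_ne_map_eq_of_card_lt_of_maps_to hcard2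
    (f := g) (fun b hb' => (hg b hb').1)
  refine hne (hb b b' p (g b) ?_ (h2 b hb1) (hg b hb1).2 (h2 b' hb2) ?_)
  · rintro rfl
    exact hsp (hg b hb1).1
  · rw [heq]
    exact (hg b' hb2).2

/-- The nodes of a vertex of `V` can be recovered from the graph. -/
theorem exists_node_map {V W Q Q' : Type*} [Fintype V] [DecidableEq Q] {nd : V → Finset Q}
    {nd' : W → Finset Q'} {m : ℕ}
    (ha' : ∀ a, (nd' a).card ≤ m) (hb' : Linear nd')
    (hc : ∀ p, m * m + 2 ≤ (Finset.univ.filter fun a => p ∈ nd a).card)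
    (φ : coll nd ≃g coll nd') (p : Q) : ∃ p', ∀ a, p ∈ nd a → p' ∈ nd' (φ a) := by
  classical
  obtain ⟨p', hp'⟩ := exists_common ha' hb' ((Finset.univ.filter fun a => p ∈ nd a).map
    φ.toEquiv.toEmbedding) (by
      intro a ha1 b hb1 hab
      rw [Finset.mem_map] at ha1 hb1
      obtain ⟨a, ha1, rfl⟩ := ha1
      obtain ⟨b, hb1, rfl⟩ := hb1
      rw [Finset.mem_filter] at ha1 hb1
      have h1 : (coll nd).Adj a b := by
        refine ⟨?_, p, ha1.2, hb1.2⟩
        rintro rfl
        exact hab rfl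
      exact (φ.map_rel_iff.2 h1).2) (by rw [Finset.card_map]; exact hc p)
  refine ⟨p', fun a ha => hp' _ ?_⟩
  rw [Finset.mem_map]
  exact ⟨a, by simp [ha], rfl⟩

/-- An isomorphism of the collinearity graphs is induced by an isomorphism of the spaces. -/
theorem exists_node_equiv {V W Q Q' : Type*} [Fintype V] [Fintype W] [DecidableEq Q]
    [DecidableEq Q'] {nd : V → Finset Q} {nd' : W → Finset Q'} {m : ℕ}
    (ha : ∀ a, (nd a).card ≤ m) (ha' : ∀ a, (nd' a).card ≤ m)
    (hb : Linear nd) (hb' : Linear nd')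
    (hc : ∀ p, m * m + 2 ≤ (Finset.univ.filter fun a => p ∈ nd a).card)
    (hc' : ∀ p, m * m + 2 ≤ (Finset.univ.filter fun a => p ∈ nd' a).card)
    (φ : coll nd ≃g coll nd') :
    ∃ ψ : Q ≃ Q', ∀ a p, p ∈ nd a ↔ ψ p ∈ nd' (φ a) := by
  choose f hf using exists_node_map ha' hb' hc φ
  choose g hg using exists_node_map ha hb hc' φ.symm
  have key : ∀ p, g (f p) = p := by
    intro p
    by_contra hne
    have h1 : ∀ a, p ∈ nd a → g (f p) ∈ nd a := by
      intro a h
      have := hg _ _ (hf p a h)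
      rwa [φ.symm_apply_apply] at this
    have h2 : 1 < (Finset.univ.filter fun a => p ∈ nd a).card := by
      have := hc p
      omega
    obtain ⟨a, ha1, b, hb1, hab⟩ := Finset.one_lt_card.1 h2
    rw [Finset.mem_filter] at ha1 hb1
    exact hab (hb a b (g (f p)) p hne (h1 a ha1.2) ha1.2 (h1 b hb1.2) hb1.2)
  have key' : ∀ p, f (g p) = p := by
    intro p
    by_contra hne
    have h1 : ∀ a, p ∈ nd' a → f (g p) ∈ nd' a := by
      intro a h
      have := hf _ _ (hg p a h)
      rwa [φ.apply_symm_apply] at this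
    have h2 : 1 < (Finset.univ.filter fun a => p ∈ nd' a).card := by
      have := hc' p
      omega
    obtain ⟨a, ha1, b, hb1, hab⟩ := Finset.one_lt_card.1 h2
    rw [Finset.mem_filter] at ha1 hb1
    exact hab (hb' a b (f (g p)) p hne (h1 a ha1.2) ha1.2 (h1 b hb1.2) hb1.2)
  refine ⟨⟨f, g, key, key'⟩, fun a p => ⟨hf p a, fun h => ?_⟩⟩
  have := hg _ _ h
  rw [φ.symm_apply_apply] at this
  exact (key p) ▸ this

end Pool.Agent.H72.JC
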