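import Pool.Agent.H72.JC.Labels
import Pool.Graph.R_pool_sql_team_seeded_620a6dc7.H129.UB.Red

/-!
# The construction on adjacency matrices
-/

set_option autoImplicit false

namespace Pool.Agent.NPC.JC72

open Pool.Agent.H72.JC Pool.Agent.NPC.R671
open Pool.Agent.NPC.UB129 (Mat ent ent_adjMatrix length_adjMatrix valid valid_iff upoly_len poly_ent poly_valid)

/-- The number of points. -/
def vv (k n : ℕ) : ℕ := (n + 1) * ((n + 1) * LL k)

/-- The numbering of the points. -/
def ee (k n : ℕ) : Pt (Fin n) k ≃ Fin (vv k n) :=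
  (Equiv.prodCongr finSuccEquivLast.symm
    ((Equiv.prodCongr finSuccEquivLast.symm (Equiv.refl (Fin (LL k)))).trans
      finProdFinEquiv)).trans finProdFinEquiv

/-- The first coordinate. -/
def ca (k n x : ℕ) : ℕ := x / ((n + 1) * LL k)

/-- The second coordinate. -/
def cb (k n x : ℕ) : ℕ := x % ((n + 1) * LL k) / LL k

/-- The third coordinate. -/
def cl (k n x : ℕ) : ℕ := x % ((n + 1) * LL k) % LL k

theorem option_eq_iff {n : ℕ} (a : Option (Fin n)) (i : Fin n) :
    a = some i ↔ (finSuccEquivLast.symm a : ℕ) = i := by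
  cases a with
  | none =>
    rw [finSuccEquivLast_symm_none]
    simp only [reduceCtorEq, Fin.val_last, false_iff]
    omega
  | some j =>
    rw [finSuccEquivLast_symm_some]
    simp only [Option.some.injEq, Fin.val_castSucc, Fin.ext_iff]

theorem fpf_val {m n : ℕ} (x : Fin m) (y : Fin n) :
    (finProdFinEquiv (x, y) : ℕ) = y + n * x := rfl

theorem ee_val (k n : ℕ) (x : Pt (Fin n) k) : (ee k n x : ℕ) =
    (x.2.2 + LL k * (finSuccEquivLast.symm x.2.1 : ℕ)) +
      ((n + 1) * LL k) * (finSuccEquivLast.symm x.1 : ℕ) := rfl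

theorem inner_lt (k n : ℕ) (x : Pt (Fin n) k) :
    (x.2.2 : ℕ) + LL k * (finSuccEquivLast.symm x.2.1 : ℕ) < (n + 1) * LL k := by
  have h1 := x.2.2.2
  have h2 := (finSuccEquivLast.symm x.2.1).2
  nlinarith

theorem ca_ee (k n : ℕ) (x : Pt (Fin n) k) : ca k n (ee k n x) = (finSuccEquivLast.symm x.1 : ℕ) := by
  rw [ca, ee_val, Nat.add_mul_div_left _ _ (Nat.mul_pos n.succ_pos (LL_pos k)),
    Nat.div_eq_of_lt (inner_lt k n x), zero_add]

theorem cb_ee (k n : ℕ) (x : Pt (Fin n) k) :
    cb k n (ee k n x) = (finSuccEquivLast.symm x.2.1 : ℕ) := by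
  rw [cb, ee_val, Nat.add_mul_mod_self_left, Nat.mod_eq_of_lt (inner_lt k n x),
    Nat.add_mul_div_left _ _ (LL_pos k), Nat.div_eq_of_lt x.2.2.2, zero_add]

theorem cl_ee (k n : ℕ) (x : Pt (Fin n) k) : cl k n (ee k n x) = x.2.2 := by
  rw [cl, ee_val, Nat.add_mul_mod_self_left, Nat.mod_eq_of_lt (inner_lt k n x),
    Nat.add_mul_mod_self_left, Nat.mod_eq_of_lt x.2.2.2]

/-- The membership test for the sets of pairs. -/
def memE (k n i j x : ℕ) : Bool :=
  (decide (cl k n x = 0) && ((decide (ca k n x = i) && decide (cb k n x = i)) ||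
    (decide (ca k n x = j) && decide (cb k n x = j)))) ||
  (decide (cl k n x < k) && ((decide (ca k n x = i) && decide (cb k n x = j)) ||
    (decide (ca k n x = j) && decide (cb k n x = i))))

/-- The membership test for the private sets. -/
def memD (k n i lo x : ℕ) : Bool :=
  decide (ca k n x = i) && (decide (cb k n x = i) &&
    (decide (cl k n x = 0) || (decide (lo ≤ cl k n x) && decide (cl k n x < lo + (2 * k + 1)))))

theorem memE_iff {k n : ℕ} (i j : Fin n) (x : Pt (Fin n) k) :
    memE k n i j (ee k n x) = true ↔ x ∈ Eset k i j := by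
  simp only [memE, Bool.or_eq_true, Bool.and_eq_true, decide_eq_true_eq, ca_ee, cb_ee, cl_ee,
    ← option_eq_iff, mem_Eset]
  obtain ⟨a, b, l⟩ := x
  simp only [rp, Prod.mk.injEq, Fin.ext_iff]
  tauto

theorem memD_iff {k n : ℕ} (i : Fin n) (b : Bool) (x : Pt (Fin n) k) :
    memD k n i (lo k b) (ee k n x) = true ↔ x ∈ Dset k i b := by
  simp only [memD, Bool.or_eq_true, Bool.and_eq_true, decide_eq_true_eq, ca_ee, cb_ee, cl_ee,
    ← option_eq_iff, mem_Dset]

theorem lab_eq_filter {P : Type*} [DecidableEq P] {v : ℕ} {e : P ≃ Fin v} {S : Finset P}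
    {q : ℕ → Bool} (h : ∀ a, q (e a) = true ↔ a ∈ S) : lab e S = (List.range v).filter q := by
  refine eq_of_mem_iff (pairwise_lab _) (List.Pairwise.filter _ List.pairwise_lt_range)
    fun x => ?_
  rw [mem_lab, List.mem_filter, List.mem_range]
  constructor
  · rintro ⟨a, ha, rfl⟩
    exact ⟨(e a).2, (h a).2 ha⟩
  · rintro ⟨h1, h2⟩
    refine ⟨e.symm ⟨x, h1⟩, ?_, by rw [e.apply_symm_apply]⟩
    rw [← h, e.apply_symm_apply]
    exact h2

/-- The list of the labels of the family. -/
def fl (k : ℕ) (M : Mat) : List (List ℕ) :=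
  ((List.range M.length ×ˢ List.range M.length).filter fun p => ent M p.1 p.2).map (fun p =>
    (List.range (vv k M.length)).filter fun x => memE k M.length p.1 p.2 x) ++
  (List.range M.length ×ˢ [1, 2 * k + 2]).map fun p =>
    (List.range (vv k M.length)).filter fun x => memD k M.length p.1 p.2 x

theorem mem_fl {k n : ℕ} (G : SimpleGraph (Fin n)) (l : List ℕ) :
    l ∈ fl k (adjMatrix G) ↔ ∃ E ∈ fam k G, lab (ee k n) E = l := by
  have hE : ∀ i j : Fin n, lab (ee k n) (Eset k i j) =
      (List.range (vv k n)).filter fun x => memE k n i j x :=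
    fun i j => lab_eq_filter (memE_iff i j)
  have hD : ∀ (i : Fin n) (b : Bool), lab (ee k n) (Dset k i b) =
      (List.range (vv k n)).filter fun x => memD k n i (lo k b) x :=
    fun i b => lab_eq_filter (memD_iff i b)
  rw [fl, length_adjMatrix, List.mem_append, List.mem_map, List.mem_map]
  constructor
  · rintro (⟨⟨i, j⟩, h1, rfl⟩ | ⟨⟨i, b⟩, h1, rfl⟩)
    · rw [List.mem_filter, List.mem_product, List.mem_range, List.mem_range] at h1
      obtain ⟨⟨hi, hj⟩, h2⟩ := h1
      refine ⟨Eset k (⟨i, hi⟩ : Fin n) ⟨j, hj⟩, Or.inl ⟨_, _, ?_, rfl⟩, hE _ _⟩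
      exact (ent_adjMatrix G ⟨i, hi⟩ ⟨j, hj⟩).1 h2
    · rw [List.mem_product, List.mem_range] at h1
      obtain ⟨hi, h2⟩ := h1
      simp only [List.mem_cons, List.not_mem_nil, or_false] at h2
      rcases h2 with h2 | h2
      · refine ⟨Dset k (⟨i, hi⟩ : Fin n) false, Or.inr ⟨_, _, rfl⟩, ?_⟩
        rw [hD, h2]
        rfl
      · refine ⟨Dset k (⟨i, hi⟩ : Fin n) true, Or.inr ⟨_, _, rfl⟩, ?_⟩
        rw [hD, h2]
        rfl
  · rintro ⟨E, ⟨i, j, hij, rfl⟩ | ⟨i, b, rfl⟩, rfl⟩
    · refine Or.inl ⟨(i, j), ?_, (hE i j).symm⟩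
      rw [List.mem_filter, List.mem_product, List.mem_range, List.mem_range]
      exact ⟨⟨i.2, j.2⟩, (ent_adjMatrix G i j).2 hij⟩
    · refine Or.inr ⟨(i, lo k b), ?_, (hD i b).symm⟩
      rw [List.mem_product, List.mem_range]
      refine ⟨i.2, ?_⟩
      cases b <;> simp [lo]

/-- The construction, as a graph on `{0, ..., N - 1}`. -/
noncomputable def TT (k n : ℕ) (G : SimpleGraph (Fin n)) :
    SimpleGraph (Fin (vsL k (vv k n) (fl k (adjMatrix G))).length) :=
  listGraph (vsL k (vv k n) (fl k (adjMatrix G))) adjL adjL_comm adjL_self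

theorem TT_iso (k n : ℕ) (hk : 1 ≤ k) (G : SimpleGraph (Fin n)) :
    Nonempty (TT k n G ≃g big k G) := by
  obtain ⟨f, hf⟩ := exists_equiv (vsL k (vv k n) (fl k (adjMatrix G))) (nodup_vsL _ _ _)
    (fun x : Vtx k (fam k G) => lb (ee k n) x.1)
    (fun x y h => Subtype.ext (lb_injective h))
    (mem_vsL (good_fam hk G) (mem_fl G))
  refine ⟨⟨f, fun {i j} => ?_⟩⟩
  show (coll nd).Adj (f i) (f j) ↔ adjL _ _ = true
  rw [← adjL_iff (e := ee k n), hf, hf]

/-- The construction on adjacency matrices. -/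
def red (k : ℕ) (M : Mat) : Mat :=
  (vsL k (vv k M.length) (fl k M)).map fun u => (vsL k (vv k M.length) (fl k M)).map fun w =>
    adjL u w

theorem red_adjMatrix (k : ℕ) {n : ℕ} (G : SimpleGraph (Fin n)) :
    red k (adjMatrix G) = adjMatrix (TT k n G) := by
  rw [TT, adjMatrix_listGraph, red, length_adjMatrix]

/-! ### Polynomial time -/

variable {α : Type} [TEnc α]

theorem upoly_vv (k : ℕ) : UPoly (fun M : Mat => vv k M.length) := by
  unfold vv
  exact (upoly_len.add (UPoly.const 1)).mul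
    ((upoly_len.add (UPoly.const 1)).mul (UPoly.const (LL k)))

theorem poly_tup {v : α → ℕ} (hv : UPoly v) : ∀ m : ℕ, Poly (fun a => tup (v a) m)
  | 0 => Poly.const _
  | m + 1 => by
    refine Poly.flatMap (l := fun a => List.range (v a))
      (F := fun a x => (tup (v a) m).map fun l => x :: l) hv.range ?_
    refine Poly.map (l := fun p : α × ℕ => tup (v p.1) m) (F := fun p l => p.2 :: l)
      ((poly_tup hv m).comp (Poly.fst Poly.id)) ?_
    fun_prop

theorem poly_incr : Poly incr := by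
  unfold incr
  fun_prop

theorem poly_subsL {v : α → ℕ} (hv : UPoly v) (m : ℕ) : Poly (fun a => subsL (v a) m) := by
  unfold subsL
  exact Poly.filter (p := fun _ l => incr l) (poly_tup hv m) (poly_incr.comp (Poly.snd Poly.id))

theorem poly_nodesL : Poly nodesL := by
  unfold nodesL
  fun_prop

theorem poly_adjL : Poly (fun p : Lb × Lb => adjL p.1 p.2) := by
  unfold adjL
  refine Poly.and ?_ ?_
  · fun_prop
  · refine Poly.any (l := fun p : Lb × Lb => nodesL p.1)
      (p := fun (p : Lb × Lb) (q : List ℕ) => decide (q ∈ nodesL p.2))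
      (poly_nodesL.comp (Poly.fst Poly.id)) ?_
    exact Poly.dec_mem (Poly.snd Poly.id) (poly_nodesL.comp (Poly.snd (Poly.fst Poly.id)))

theorem poly_ca (k : ℕ) : Poly (fun p : ℕ × ℕ => ca k p.1 p.2) := by
  unfold ca
  fun_prop

theorem poly_cb (k : ℕ) : Poly (fun p : ℕ × ℕ => cb k p.1 p.2) := by
  unfold cb
  fun_prop

theorem poly_cl (k : ℕ) : Poly (fun p : ℕ × ℕ => cl k p.1 p.2) := by
  unfold cl
  fun_prop

theorem poly_memE (k : ℕ) :
    Poly (fun p : ℕ × ℕ × ℕ × ℕ => memE k p.1 p.2.1 p.2.2.1 p.2.2.2) := by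
  unfold memE ca cb cl
  fun_prop

theorem poly_memD (k : ℕ) :
    Poly (fun p : ℕ × ℕ × ℕ × ℕ => memD k p.1 p.2.1 p.2.2.1 p.2.2.2) := by
  unfold memD ca cb cl
  fun_prop

theorem poly_fl (k : ℕ) : Poly (fl k) := by
  have hn : Poly (fun M : Mat => M.length) := upoly_len.toPoly
  have hr : Poly (fun M : Mat => List.range M.length) := upoly_len.range
  have hv : Poly (fun M : Mat => List.range (vv k M.length)) := (upoly_vv k).range
  have he : Poly (fun p : Mat × ℕ × ℕ => ent p.1 p.2.1 p.2.2) := poly_ent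
  unfold fl
  refine Poly.append ?_ ?_
  · refine Poly.map (F := fun (M : Mat) (p : ℕ × ℕ) => (List.range (vv k M.length)).filter
      fun x => memE k M.length p.1 p.2 x) ?_ ?_
    · exact Poly.filter (p := fun (M : Mat) (p : ℕ × ℕ) => ent M p.1 p.2)
        (poly_product hr hr) he
    · refine Poly.filter (l := fun q : Mat × ℕ × ℕ => List.range (vv k q.1.length))
        (p := fun (q : Mat × ℕ × ℕ) x => memE k q.1.length q.2.1 q.2.2 x)
        (hv.comp (Poly.fst Poly.id)) ?_
      exact (poly_memE k).comp (f := fun q : (Mat × ℕ × ℕ) × ℕ =>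
        (q.1.1.length, q.1.2.1, q.1.2.2, q.2)) (by fun_prop)
  · refine Poly.map (F := fun (M : Mat) (p : ℕ × ℕ) => (List.range (vv k M.length)).filter
      fun x => memD k M.length p.1 p.2 x) (poly_product hr (Poly.const _)) ?_
    refine Poly.filter (l := fun q : Mat × ℕ × ℕ => List.range (vv k q.1.length))
      (p := fun (q : Mat × ℕ × ℕ) x => memD k q.1.length q.2.1 q.2.2 x)
      (hv.comp (Poly.fst Poly.id)) ?_
    exact (poly_memD k).comp (f := fun q : (Mat × ℕ × ℕ) × ℕ =>
      (q.1.1.length, q.1.2.1, q.1.2.2, q.2)) (by fun_prop)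

theorem poly_vsL (k : ℕ) : Poly (fun M : Mat => vsL k (vv k M.length) (fl k M)) := by
  have hf := poly_fl k
  have h1 := poly_subsL (upoly_vv k) (k + 2)
  have h2 := poly_subsL (upoly_vv k) (2 * k + 2)
  have h3 := poly_subsL (upoly_vv k) k
  unfold vsL
  refine Poly.append ?_ ?_
  · refine Poly.map (F := fun (_ : Mat) (S : List ℕ) => (Sum.inl S : Lb)) ?_ (by fun_prop)
    refine Poly.filter (p := fun (M : Mat) (S : List ℕ) =>
      !((fl k M).any fun E => S.all fun x => decide (x ∈ E))) h1 ?_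
    refine Poly.not (Poly.any (l := fun p : Mat × List ℕ => fl k p.1)
      (p := fun (p : Mat × List ℕ) (E : List ℕ) => p.2.all fun x => decide (x ∈ E))
      (hf.comp (Poly.fst Poly.id)) ?_)
    fun_prop
  · refine Poly.flatMap (F := fun (M : Mat) (E : List ℕ) =>
      ((subsL (vv k M.length) k).filter fun C => C.all fun x => decide (x ∈ E)).map
        fun C => (Sum.inr (E, C) : Lb)) ?_ ?_
    · exact Poly.filter (p := fun (M : Mat) (E : List ℕ) => decide (E ∈ fl k M)) h2
        (Poly.dec_mem (Poly.snd Poly.id) (hf.comp (Poly.fst Poly.id)))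
    · refine Poly.map (l := fun p : Mat × List ℕ =>
        (subsL (vv k p.1.length) k).filter fun C => C.all fun x => decide (x ∈ p.2))
        (F := fun (p : Mat × List ℕ) (C : List ℕ) => (Sum.inr (p.2, C) : Lb)) ?_ (by fun_prop)
      exact Poly.filter (l := fun p : Mat × List ℕ => subsL (vv k p.1.length) k)
        (p := fun (p : Mat × List ℕ) (C : List ℕ) => C.all fun x => decide (x ∈ p.2))
        (h3.comp (Poly.fst Poly.id)) (by fun_prop)

theorem poly_red (k : ℕ) : Poly (red k) := by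
  have h := poly_vsL k
  unfold red
  refine Poly.map (F := fun (M : Mat) (u : Lb) => (vsL k (vv k M.length) (fl k M)).map
    fun w => adjL u w) h ?_
  refine Poly.map (l := fun p : Mat × Lb => vsL k (vv k p.1.length) (fl k p.1))
    (F := fun (p : Mat × Lb) (w : Lb) => adjL p.2 w) (h.comp (Poly.fst Poly.id)) ?_
  exact poly_adjL.comp (f := fun q : (Mat × Lb) × Lb => (q.1.2, q.2)) (by fun_prop)

end Pool.Agent.NPC.JC72
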