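import Pool.Agent.H72.JC.GIDef
import Pool.Agent.H72.JC.Red
import Pool.Agent.H72.JC.Eig
import Pool.Graph.R_pool_sql_team_seeded_620a6dc7.H129.UB.Main

/-!
# Isomorphism of graphs with the spectrum of a Johnson graph
-/

set_option autoImplicit false

namespace Pool.Agent.NPC.JC72

open Pool.Agent.H72.JC Pool.Agent.NPC.R671
open Pool.Agent.NPC.UB129 (Mat ent ent_adjMatrix length_adjMatrix valid valid_iff upoly_len poly_ent poly_valid)

theorem mem_GI {n m : ℕ} (G : SimpleGraph (Fin n)) (H : SimpleGraph (Fin m)) :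
    bits (adjMatrix G, adjMatrix H) ∈ GI ↔ Nonempty (G ≃g H) := UB129.mem_GI G H

open Classical in
theorem Cospectral.of_iso {V W : Type*} [Fintype V] [Fintype W] {G : SimpleGraph V}
    {H : SimpleGraph W} (φ : G ≃g H) : Cospectral G H := by
  unfold Cospectral
  have h1 : H.adjMatrix ℝ = Matrix.reindex φ.toEquiv φ.toEquiv (G.adjMatrix ℝ) := by
    ext x y
    rw [Matrix.reindex_apply, Matrix.submatrix_apply, SimpleGraph.adjMatrix_apply,
      SimpleGraph.adjMatrix_apply]
    refine if_congr ?_ rfl rfl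
    exact (φ.symm.map_rel_iff (a := x) (b := y)).symm
  rw [h1, Matrix.charpoly_reindex]

/-- Johnson graphs on equinumerous sets are isomorphic. -/
def johnsonIso {P Q : Type*} [DecidableEq P] [DecidableEq Q] (d : ℕ) (e : P ≃ Q) :
    johnson P d ≃g johnson Q d where
  toEquiv := (Equiv.finsetCongr e).subtypeEquiv fun s => by
    rw [Equiv.finsetCongr_apply, Finset.card_map]
  map_rel_iff' {s t} := by
    rw [johnson_adj, johnson_adj]
    show ((s.1.map e.toEmbedding) ∩ (t.1.map e.toEmbedding)).card + 1 = d ↔ _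
    rw [← Finset.map_inter, Finset.card_map]

theorem johnsonSpectrum_TT {k : ℕ} (hk : 1 ≤ k) {n : ℕ} (G : SimpleGraph (Fin n)) :
    JohnsonSpectrum (k + 2) (TT k n G) := by
  obtain ⟨φ⟩ := TT_iso k n hk G
  refine ⟨vv k n, ?_, ?_⟩
  · have h1 : LL k ≤ vv k n := by
      unfold vv
      nlinarith [Nat.zero_le n, Nat.zero_le (n * LL k), Nat.zero_le (n * (n * LL k))]
    have h2 := (LL_ge k).2
    nlinarith
  · have h1 := Cospectral.of_iso φ
    have h2 := cospectral_johnson (good_fam hk G)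
    have h3 := Cospectral.of_iso (johnsonIso (k + 2) (ee k n))
    unfold Cospectral at h1 h2 h3 ⊢
    exact h1.trans (h2.trans h3)

theorem TT_iso_iff {k : ℕ} (hk : 1 ≤ k) {n m : ℕ} (G : SimpleGraph (Fin n))
    (H : SimpleGraph (Fin m)) : Nonempty (TT k n G ≃g TT k m H) ↔ Nonempty (G ≃g H) := by
  obtain ⟨φ⟩ := TT_iso k n hk G
  obtain ⟨χ⟩ := TT_iso k m hk H
  rw [← big_iso_iff hk G H]
  constructor
  · rintro ⟨θ⟩
    exact ⟨(φ.symm.trans θ).trans χ⟩
  · rintro ⟨θ⟩
    exact ⟨(φ.trans θ).trans χ.symm⟩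

/-- The pair of graphs of a string: invalid strings are mapped to a fixed pair. -/
def gmap (k : ℕ) (x : List Bool) : Mat × Mat :=
  (unbits (Mat × Mat) x).elim (red k [], red k [[false]]) fun p =>
    bif valid p.1 && valid p.2 then (red k p.1, red k p.2) else (red k [], red k [[false]])

theorem poly_gmap (k : ℕ) : Poly (gmap k) := by
  unfold gmap
  refine Poly.optElim (h := fun _ (p : Mat × Mat) => bif valid p.1 && valid p.2 then
    (red k p.1, red k p.2) else (red k [], red k [[false]])) poly_unbits (Poly.const _) ?_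
  refine Poly.cond ?_ ?_ (Poly.const _)
  · exact (poly_valid.comp (Poly.fst (Poly.snd Poly.id))).and
      (poly_valid.comp (Poly.snd (Poly.snd Poly.id)))
  · exact Poly.pair ((poly_red k).comp (Poly.fst (Poly.snd Poly.id)))
      ((poly_red k).comp (Poly.snd (Poly.snd Poly.id)))

theorem gmap_spec {k : ℕ} (hk : 1 ≤ k) (x : List Bool) :
    ∃ (n m : ℕ) (G : SimpleGraph (Fin n)) (H : SimpleGraph (Fin m)),
      gmap k x = (adjMatrix (TT k n G), adjMatrix (TT k m H)) ∧
      (x ∈ GI ↔ Nonempty (TT k n G ≃g TT k m H)) := by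
  have e0 : adjMatrix (⊥ : SimpleGraph (Fin 0)) = [] := by simp [adjMatrix]
  have e1 : adjMatrix (⊥ : SimpleGraph (Fin 1)) = [[false]] := by simp [adjMatrix]
  have hbad : x ∉ GI → gmap k x = (red k [], red k [[false]]) →
      ∃ (n m : ℕ) (G : SimpleGraph (Fin n)) (H : SimpleGraph (Fin m)),
      gmap k x = (adjMatrix (TT k n G), adjMatrix (TT k m H)) ∧
      (x ∈ GI ↔ Nonempty (TT k n G ≃g TT k m H)) := by
    intro hx hg
    refine ⟨0, 1, ⊥, ⊥, ?_, ?_⟩
    · have h0 : red k [] = adjMatrix (TT k 0 (⊥ : SimpleGraph (Fin 0))) := by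
        rw [← red_adjMatrix, e0]
      have h1 : red k [[false]] = adjMatrix (TT k 1 (⊥ : SimpleGraph (Fin 1))) := by
        rw [← red_adjMatrix, e1]
      rw [hg, h0, h1]
    · rw [TT_iso_iff hk]
      refine iff_of_false hx ?_
      rintro ⟨φ⟩
      exact (φ.symm 0).elim0
  cases hu : unbits (Mat × Mat) x with
  | none =>
    refine hbad ?_ (by unfold gmap; rw [hu]; rfl)
    rintro ⟨n, m, G, H, rfl, _⟩
    rw [unbits_bits] at hu
    exact absurd hu (by simp)
  | some p =>
    obtain ⟨M, M'⟩ := p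
    have hx := bits_of_unbits hu
    by_cases hv : valid M = true ∧ valid M' = true
    · obtain ⟨n, G, hG⟩ := (valid_iff M).1 hv.1
      obtain ⟨m, H, hH⟩ := (valid_iff M').1 hv.2
      refine ⟨n, m, G, H, ?_, ?_⟩
      · unfold gmap
        rw [hu, Option.elim_some, hv.1, hv.2]
        simp only [Bool.and_self, cond_true]
        rw [← hG, ← hH, red_adjMatrix, red_adjMatrix]
      · rw [TT_iso_iff hk, ← hx, ← hG, ← hH, mem_GI]
    · refine hbad ?_ ?_
      · rintro ⟨n, m, G, H, h, _⟩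
        rw [← hx] at h
        have h1 := bits_injective h
        rw [Prod.mk.injEq] at h1
        exact hv ⟨(valid_iff M).2 ⟨n, G, h1.1.symm⟩, (valid_iff M').2 ⟨m, H, h1.2.symm⟩⟩
      · unfold gmap
        rw [hu, Option.elim_some]
        have : (valid M && valid M') = false := by
          rw [Bool.eq_false_iff]
          intro h
          rw [Bool.and_eq_true] at h
          exact hv h
        simp only [this, cond_false]

/-- Isomorphism of graphs with the spectrum of a Johnson graph is as hard as graph isomorphism. -/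
theorem main (d : ℕ) (hd : 3 ≤ d) :
    (∀ (n : ℕ) (G : SimpleGraph (Fin n)), JohnsonSpectrum d G → numEigenvalues G = d + 1) ∧
    (∃ (N : ∀ n, SimpleGraph (Fin n) → ℕ) (T : ∀ n G, SimpleGraph (Fin (N n G)))
        (F : List Bool → List Bool), PolyTime F ∧
      (∀ n G, F (bits (adjMatrix G)) = bits (adjMatrix (T n G))) ∧
      (∀ n G, JohnsonSpectrum d (T n G)) ∧
      ∀ n m G H, Nonempty (T n G ≃g T m H) ↔ Nonempty (G ≃g H)) ∧
    ((∃ A : List Bool → List Bool, PolyTime A ∧
        ∀ (n m : ℕ) (G : SimpleGraph (Fin n)) (H : SimpleGraph (Fin m)),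
          JohnsonSpectrum d G → JohnsonSpectrum d H →
          (A (bits (adjMatrix G, adjMatrix H)) = [true] ↔ Nonempty (G ≃g H))) ↔ InP GI) ∧
    ((∀ L : Set (List Bool), InNP L → ∃ g : List Bool → List Bool, PolyTime g ∧
        ∀ x, ∃ (n m : ℕ) (G : SimpleGraph (Fin n)) (H : SimpleGraph (Fin m)),
          JohnsonSpectrum d G ∧ JohnsonSpectrum d H ∧ g x = bits (adjMatrix G, adjMatrix H) ∧
          (x ∈ L ↔ Nonempty (G ≃g H))) ↔ NPHard GI) := by
  obtain ⟨k, rfl⟩ : ∃ k, d = k + 2 := ⟨d - 2, by omega⟩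
  have hk : 1 ≤ k := by omega
  have hJ : ∀ n (G : SimpleGraph (Fin n)), JohnsonSpectrum (k + 2) (TT k n G) :=
    fun n G => johnsonSpectrum_TT hk G
  refine ⟨?_, ⟨_, TT k, _, polyTime_opt (Poly.optMap (o := unbits Mat) (f := fun _ M => red k M)
    poly_unbits ((poly_red k).comp (Poly.snd Poly.id))), ?_, hJ, fun n m G H =>
    TT_iso_iff hk G H⟩, ?_, ?_⟩
  · rintro n G ⟨v, hv, h⟩
    exact numEigenvalues_eq (by rw [Fintype.card_fin]; exact hv) h
  · intro n G
    simp only [unbits_bits, Option.map_some, red_adjMatrix]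
  · constructor
    · rintro ⟨A, hA, h⟩
      refine ⟨fun x => A (bits (gmap k x)), H642R2.TMSim.polyTime_comp hA
        (polyTime_bits (poly_gmap k)), fun x => ?_⟩
      obtain ⟨n, m, G, H, h1, h2⟩ := gmap_spec hk x
      show x ∈ GI ↔ A (bits (gmap k x)) = [true]
      rw [h2, h1, h _ _ _ _ (hJ _ _) (hJ _ _)]
    · rintro ⟨A, hA, h⟩
      exact ⟨A, hA, fun n m G H _ _ => by rw [← h, mem_GI]⟩
  · constructor
    · intro h L hL
      obtain ⟨g, hg, h1⟩ := h L hL
      refine ⟨g, hg, fun x => ?_⟩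
      obtain ⟨n, m, G, H, _, _, h2, h3⟩ := h1 x
      rw [h2, mem_GI, h3]
    · intro h L hL
      obtain ⟨f, hf, hfL⟩ := h L hL
      have hp : PolyTime (fun x => bits (gmap k (f x))) :=
        H642R2.TMSim.polyTime_comp (g := fun x => bits (gmap k x)) (f := f)
          (polyTime_bits (poly_gmap k)) hf
      refine ⟨fun x => bits (gmap k (f x)), hp, fun x => ?_⟩
      obtain ⟨n, m, G, H, h1, h2⟩ := gmap_spec hk (f x)
      exact ⟨_, _, TT k n G, TT k m H, hJ _ _, hJ _ _, congrArg bits h1, (hfL x).trans h2⟩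

end Pool.Agent.NPC.JC72
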