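import Pool.Agent.H72.JC.Blocks

/-!
# The family can be recovered from the graph
-/

set_option autoImplicit false

namespace Pool.Agent.H72.JC

section

variable {P : Type*} [Fintype P] [DecidableEq P]

theorem common_iff {k : ℕ} (F : Set (Finset P)) (p q : {p : Finset P // p.card = k + 1})
    (hpq : p ≠ q) : (∃ x : Vtx k F, p ∈ nd x ∧ q ∈ nd x) ↔
      ∃ B : {B : Finset P // B.card = k + 1 + 1}, p ∈ subs (k + 1) B.1 ∧ q ∈ subs (k + 1) B.1 := by
  rw [exists_common_iff F hpq]
  simp only [mem_subs]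
  constructor
  · intro h
    exact ⟨⟨p.1 ∪ q.1, h⟩, Finset.subset_union_left, Finset.subset_union_right⟩
  · rintro ⟨B, h1, h2⟩
    rw [union_eq p.2 q.2 (fun h => hpq (Subtype.ext h)) h1 h2 B.2, B.2]

theorem card_vtx_node {k : ℕ} {F : Set (Finset P)} (hF : Good k F)
    (p : {p : Finset P // p.card = k + 1}) :
    Fintype.card P ≤ k + 1 + (Finset.univ.filter fun x : Vtx k F => p ∈ nd x).card := by
  rw [card_node_eq (nd := nd (k := k) (F := F))
    (nd' := fun B : {B : Finset P // B.card = k + 1 + 1} => subs (k + 1) B.1) (r := k + 2)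
    (by omega) (card_nd hF) (fun B => by rw [card_subs, B.2, Nat.choose_succ_self_right])
    (linear_nd hF) (linear_subs (k + 1)) (common_iff F) p]
  exact card_supers p

end

variable {P P' : Type*} [Fintype P] [DecidableEq P] [Fintype P'] [DecidableEq P']

/-- If an isomorphism of the spaces is induced by a bijection of the points, then this bijection
preserves the families. -/
theorem map_mem {k : ℕ} (hk : 1 ≤ k) {F : Set (Finset P)} {F' : Set (Finset P')} (hF : Good k F)
    (hF' : Good k F') (φ : Vtx k F → Vtx k F') (g : P ≃ P')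
    (h : ∀ (x : Vtx k F) (p : Finset P), p.card = k + 1 → Inc x.1 p →
      Inc (φ x).1 (p.map g.toEmbedding)) {E : Finset P} (hE : E ∈ F) :
    E.map g.toEmbedding ∈ F' := by
  have hcE := hF.card E hE
  obtain ⟨C, hC1, hC2⟩ := Finset.exists_subset_card_eq (s := E) (n := k) (by omega)
  have hx : IsVtx k F (Sum.inr (E, C)) := ⟨hE, hC1, hC2⟩
  have h1 := h ⟨_, hx⟩
  have h2 := (φ ⟨_, hx⟩).2
  -- every element of `E` is in a node
  have h3 : ∀ a ∈ E, ∃ p : Finset P, p.card = k + 1 ∧ Inc (Sum.inr (E, C)) p ∧ a ∈ p := by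
    intro a ha
    by_cases haC : a ∈ C
    · obtain ⟨b, hb, hbC⟩ : ∃ b ∈ E, b ∉ C := by
        by_contra hcon
        push Not at hcon
        have := Finset.card_le_card (show E ⊆ C from hcon)
        omega
      exact ⟨insert b C, by rw [Finset.card_insert_of_notMem hbC, hC2],
        ⟨Finset.subset_insert _ _, Finset.insert_subset hb hC1⟩, Finset.mem_insert_of_mem haC⟩
    · exact ⟨insert a C, by rw [Finset.card_insert_of_notMem haC, hC2],
        ⟨Finset.subset_insert _ _, Finset.insert_subset ha hC1⟩, Finset.mem_insert_self _ _⟩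
  rcases hφ : (φ ⟨_, hx⟩).1 with S | ⟨E', C'⟩
  · rw [hφ] at h2
    have h4 : E.map g.toEmbedding ⊆ S := by
      intro y hy
      rw [Finset.mem_map] at hy
      obtain ⟨a, ha, rfl⟩ := hy
      obtain ⟨p, hp1, hp2, hp3⟩ := h3 a ha
      have h5 := h1 p hp1 hp2
      rw [hφ] at h5
      exact h5 (Finset.mem_map_of_mem _ hp3)
    have h5 := Finset.card_le_card h4
    rw [Finset.card_map, h2.1, hcE] at h5
    omega
  · rw [hφ] at h2
    have h4 : E.map g.toEmbedding ⊆ E' := by
      intro y hy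
      rw [Finset.mem_map] at hy
      obtain ⟨a, ha, rfl⟩ := hy
      obtain ⟨p, hp1, hp2, hp3⟩ := h3 a ha
      have h5 := h1 p hp1 hp2
      rw [hφ] at h5
      exact h5.2 (Finset.mem_map_of_mem _ hp3)
    have h5 : E.map g.toEmbedding = E' := by
      refine Finset.eq_of_subset_of_card_le h4 ?_
      rw [Finset.card_map, hcE, hF'.card E' h2.1]
    rw [h5]
    exact h2.1

/-- The families of isomorphic graphs are isomorphic. -/
theorem family_iso {k : ℕ} (hk : 1 ≤ k) {F : Set (Finset P)} {F' : Set (Finset P')}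
    (hF : Good k F) (hF' : Good k F')
    (hP : (k + 2) * (k + 2) + 2 + (k + 1) ≤ Fintype.card P)
    (hP' : (k + 2) * (k + 2) + 2 + (k + 1) ≤ Fintype.card P')
    (φ : coll (nd (k := k) (F := F)) ≃g coll (nd (k := k) (F := F'))) :
    ∃ g : P ≃ P', (∀ E ∈ F, E.map g.toEmbedding ∈ F') ∧
      ∀ E ∈ F', E.map g.symm.toEmbedding ∈ F := by
  obtain ⟨χ, hχ⟩ := exists_node_equiv (m := k + 2) (fun a => (card_nd hF a).le)
    (fun a => (card_nd hF' a).le) (linear_nd hF) (linear_nd hF')
    (fun p => by have := card_vtx_node hF p; omega)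
    (fun p => by have := card_vtx_node hF' p; omega) φ
  have hχ2 : ∀ p q, (johnson P' (k + 1)).Adj (χ p) (χ q) ↔ (johnson P (k + 1)).Adj p q := by
    intro p q
    rw [johnson_adj_iff, johnson_adj_iff, χ.injective.ne_iff]
    refine and_congr_right fun hpq => ?_
    have h1 := common_iff F p q hpq
    have h2 := common_iff F' (χ p) (χ q) (χ.injective.ne hpq)
    simp only [mem_subs] at h1 h2
    rw [← h1, ← h2]
    constructor
    · rintro ⟨B, h3, h4⟩
      obtain ⟨A, rfl⟩ := φ.surjective B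
      exact ⟨A, (hχ A p).2 h3, (hχ A q).2 h4⟩
    · rintro ⟨A, h3, h4⟩
      exact ⟨φ A, (hχ A p).1 h3, (hχ A q).1 h4⟩
  obtain ⟨g, hg⟩ := johnson_aut (P := P) (P' := P') k (by nlinarith) (by nlinarith)
    ⟨χ, fun {p q} => hχ2 p q⟩
  have hg' : ∀ p : {p : Finset P // p.card = k + 1}, (χ p).1 = p.1.map g.toEmbedding := hg
  have hg2 : ∀ p : {p : Finset P' // p.card = k + 1},
      (χ.symm p).1 = p.1.map g.symm.toEmbedding := by
    intro p
    obtain ⟨q, rfl⟩ := χ.surjective p
    rw [χ.symm_apply_apply, hg', Finset.map_map]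
    ext x
    simp
  refine ⟨g, fun E hE => ?_, fun E hE => ?_⟩
  · refine map_mem hk hF hF' φ g (fun x p hp h => ?_) hE
    have h1 := (hχ x ⟨p, hp⟩).1 (mem_nd.2 h)
    rw [mem_nd, hg'] at h1
    exact h1
  · refine map_mem hk hF' hF φ.symm g.symm (fun x p hp h => ?_) hE
    have h1 := hχ (φ.symm x) (χ.symm ⟨p, hp⟩)
    rw [φ.apply_symm_apply, χ.apply_symm_apply] at h1
    have h2 := h1.2 (mem_nd.2 h)
    rw [mem_nd, hg2] at h2
    exact h2

end Pool.Agent.H72.JC
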